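import Mathlib

/-!
# The two orders on the labels of the gadget
-/

set_option autoImplicit false

namespace Pool.Agent.Lib_helper58.Spr

/-- sort a finite type by an injective rank function -/
lemma exists_equiv_of_rank {K α : Type*} [Fintype K] [LinearOrder α] (r : K → α)
    (hr : Function.Injective r) {n : ℕ} (hn : Fintype.card K = n) :
    ∃ e : K ≃ Fin n, ∀ a b, e a < e b ↔ r a < r b := by
  letI : LinearOrder K := LinearOrder.lift' r hr
  let f : Fin n ≃o K := monoEquivOfFin K hn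
  refine ⟨f.symm.toEquiv, fun a b => ?_⟩
  show f.symm a < f.symm b ↔ r a < r b
  rw [f.symm.lt_iff_lt]
  rfl

/-- labels: level, block (`false` = `S`, `true` = `W`), coordinate -/
abbrev Lab (M : ℕ) (Q : Type) : Type := Fin M × Bool × Q

/-- the order data used by the gadget -/
structure Layout (M : ℕ) (Q : Type) (z0 zi : Q) (n : ℕ) where
  idx : Lab M Q ≃ Fin n
  pos : Lab M Q ≃ Fin n
  i1 : ∀ t t' b b' q q', t < t' → idx (t, b, q) < idx (t', b', q')
  i2 : ∀ t q q', idx (t, false, q) < idx (t, true, q')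
  i3 : ∀ t b q, idx (t, b, q) ≤ idx (t, b, z0)
  p1 : ∀ t b t' b' q', q' ≠ z0 → pos (t, b, z0) < pos (t', b', q')
  p2 : ∀ t t' b b', t < t' → pos (t, b, z0) < pos (t', b', z0)
  p2' : ∀ t, pos (t, false, z0) < pos (t, true, z0)
  p3 : ∀ t t' b b' q q', t < t' → q ≠ z0 → q' ≠ z0 → pos (t, b, q) < pos (t', b', q')
  p4 : ∀ t b q, q ≠ z0 → pos (t, b, q) ≤ pos (t, b, zi)

theorem exists_layout (M : ℕ) (Q : Type) [Fintype Q] [DecidableEq Q] (z0 zi : Q) (h : z0 ≠ zi)
    {n : ℕ} (hn : Fintype.card (Lab M Q) = n) : Nonempty (Layout M Q z0 zi n) := by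
  classical
  let N := Fintype.card Q
  let ρ : Q → ℕ := fun q => (Fintype.equivFin Q q : ℕ)
  have hρlt : ∀ q, ρ q < N := fun q => (Fintype.equivFin Q q).2
  have hρinj : Function.Injective ρ := fun a b hab =>
    (Fintype.equivFin Q).injective (Fin.ext hab)
  let σ : Q → ℕ := fun q => if q = z0 then N else ρ q
  let τ : Q → ℕ := fun q => if q = zi then N else ρ q
  have hσinj : Function.Injective σ := by
    intro a b hab
    simp only [σ] at hab
    split_ifs at hab with h1 h2 h2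
    · rw [h1, h2]
    · have := hρlt b; omega
    · have := hρlt a; omega
    · exact hρinj hab
  have hτinj : Function.Injective τ := by
    intro a b hab
    simp only [τ] at hab
    split_ifs at hab with h1 h2 h2
    · rw [h1, h2]
    · have := hρlt b; omega
    · have := hρlt a; omega
    · exact hρinj hab
  have hσle : ∀ q, σ q ≤ σ z0 := by
    intro q
    simp only [σ, if_true]
    split_ifs
    · exact le_rfl
    · exact (hρlt q).le
  have hτle : ∀ q, τ q ≤ τ zi := by
    intro q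
    simp only [τ, if_true]
    split_ifs
    · exact le_rfl
    · exact (hρlt q).le
  let bb : Bool → ℕ := fun b => if b then 1 else 0
  have hbb : ∀ b b', bb b = bb b' → b = b' := by
    intro b b'; cases b <;> cases b' <;> simp [bb]
  -- index rank
  let ri : Lab M Q → ℕ ×ₗ (ℕ ×ₗ ℕ) := fun a => toLex ((a.1 : ℕ), toLex (bb a.2.1, σ a.2.2))
  have hri : Function.Injective ri := by
    rintro ⟨t, b, q⟩ ⟨t', b', q'⟩ hab
    simp only [ri, EmbeddingLike.apply_eq_iff_eq, Prod.mk.injEq] at hab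
    obtain ⟨h1, h2, h3⟩ := hab
    have e1 : t = t' := Fin.ext h1
    have e2 := hbb _ _ h2
    have e3 := hσinj h3
    simp [e1, e2, e3]
  obtain ⟨ei, hei⟩ := exists_equiv_of_rank ri hri hn
  -- position rank
  let rp : Lab M Q → ℕ ×ₗ (ℕ ×ₗ (ℕ ×ₗ ℕ)) := fun a =>
    toLex ((if a.2.2 = z0 then 0 else 1), toLex ((a.1 : ℕ), toLex (bb a.2.1, τ a.2.2)))
  have hrp : Function.Injective rp := by
    rintro ⟨t, b, q⟩ ⟨t', b', q'⟩ hab
    simp only [rp, EmbeddingLike.apply_eq_iff_eq, Prod.mk.injEq] at hab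
    obtain ⟨-, h1, h2, h3⟩ := hab
    have e1 : t = t' := Fin.ext h1
    have e2 := hbb _ _ h2
    have e3 := hτinj h3
    simp [e1, e2, e3]
  obtain ⟨ep, hep⟩ := exists_equiv_of_rank rp hrp hn
  refine ⟨{ idx := ei, pos := ep, i1 := ?_, i2 := ?_, i3 := ?_, p1 := ?_, p2 := ?_, p2' := ?_,
            p3 := ?_, p4 := ?_ }⟩
  · intro t t' b b' q q' ht
    rw [hei, Prod.Lex.toLex_lt_toLex]
    left; exact ht
  · intro t q q'
    rw [hei, Prod.Lex.toLex_lt_toLex]
    right
    refine ⟨rfl, ?_⟩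
    rw [Prod.Lex.toLex_lt_toLex]
    left; simp [bb]
  · intro t b q
    rw [← not_lt, hei, Prod.Lex.toLex_lt_toLex]
    rintro (h1 | ⟨-, h1⟩)
    · exact lt_irrefl _ h1
    · rw [Prod.Lex.toLex_lt_toLex] at h1
      rcases h1 with h1 | ⟨-, h1⟩
      · exact lt_irrefl _ h1
      · exact absurd (hσle q) (not_le.2 h1)
  · intro t b t' b' q' hq'
    rw [hep, Prod.Lex.toLex_lt_toLex]
    left; simp [hq']
  · intro t t' b b' ht
    rw [hep, Prod.Lex.toLex_lt_toLex]
    right
    refine ⟨rfl, ?_⟩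
    rw [Prod.Lex.toLex_lt_toLex]
    left; exact ht
  · intro t
    rw [hep, Prod.Lex.toLex_lt_toLex]
    right
    refine ⟨rfl, ?_⟩
    rw [Prod.Lex.toLex_lt_toLex]
    right
    refine ⟨rfl, ?_⟩
    rw [Prod.Lex.toLex_lt_toLex]
    left; simp [bb]
  · intro t t' b b' q q' ht hq hq'
    rw [hep, Prod.Lex.toLex_lt_toLex]
    right
    refine ⟨by simp [hq, hq'], ?_⟩
    rw [Prod.Lex.toLex_lt_toLex]
    left; exact ht
  · intro t b q hq
    rw [← not_lt, hep, Prod.Lex.toLex_lt_toLex]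
    have hzi : zi ≠ z0 := fun h' => h h'.symm
    rintro (h1 | ⟨-, h1⟩)
    · simp [hq, hzi] at h1
    · rw [Prod.Lex.toLex_lt_toLex] at h1
      rcases h1 with h1 | ⟨-, h1⟩
      · exact lt_irrefl _ h1
      · rw [Prod.Lex.toLex_lt_toLex] at h1
        rcases h1 with h1 | ⟨-, h1⟩
        · exact lt_irrefl _ h1
        · exact absurd (hτle q) (not_le.2 h1)

end Pool.Agent.Lib_helper58.Spr
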