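import Mathlib
import Pool.Agent.Lib_helper58.Spr.Layout

/-!
# The gadget: analysis of the Springer Schubert cell
-/

set_option autoImplicit false

open Matrix

namespace Pool.Agent.Lib_helper58.Spr

variable {M : ℕ} {Q : Type} [Fintype Q] [DecidableEq Q] {z0 zi : Q} {n : ℕ}

/-- the nilpotent matrix of the gadget in label form -/
def XL (M : ℕ) (Ψ : ℕ → Matrix Q Q ℂ) : Matrix (Lab M Q) (Lab M Q) ℂ := fun a k =>
  if (a.1 : ℕ) + 1 = (k.1 : ℕ) then
    (if k.2.1 = false then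
       (if a.2.1 = false then (if a.2.2 = k.2.2 then 1 else 0)
        else (if 2 ≤ (k.1 : ℕ) then Ψ k.1 a.2.2 k.2.2 else 0))
     else
       (if a.2.1 = false then 0
        else (if 2 ≤ (k.1 : ℕ) then (if a.2.2 = k.2.2 then 1 else 0) else 0)))
  else 0

lemma XL_mulVec_top (Ψ : ℕ → Matrix Q Q ℂ) (y : Lab M Q → ℂ) (a : Lab M Q)
    (h : M ≤ (a.1 : ℕ) + 1) : (XL M Ψ *ᵥ y) a = 0 := by
  unfold Matrix.mulVec dotProduct
  apply Finset.sum_eq_zero
  intro k _
  have : ¬ ((a.1 : ℕ) + 1 = (k.1 : ℕ)) := by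
    have := k.1.2; omega
  simp [XL, this]

lemma XL_mulVec_false (Ψ : ℕ → Matrix Q Q ℂ) (y : Lab M Q → ℂ) (t : Fin M) (q : Q)
    (h : (t : ℕ) + 1 < M) : (XL M Ψ *ᵥ y) (t, false, q) = y (⟨(t : ℕ) + 1, h⟩, false, q) := by
  unfold Matrix.mulVec dotProduct
  rw [Fintype.sum_prod_type, Finset.sum_eq_single (⟨(t : ℕ) + 1, h⟩ : Fin M)]
  · rw [Fintype.sum_prod_type, Fintype.sum_bool]
    simp [XL]
  · intro t' _ ht'
    apply Finset.sum_eq_zero
    intro k _
    have : ¬ ((t : ℕ) + 1 = (t' : ℕ)) := fun h' => ht' (Fin.ext h'.symm)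
    simp [XL, this]
  · simp

lemma XL_mulVec_true (Ψ : ℕ → Matrix Q Q ℂ) (y : Lab M Q → ℂ) (t : Fin M) (q : Q)
    (h : (t : ℕ) + 1 < M) (h2 : 2 ≤ (t : ℕ) + 1) :
    (XL M Ψ *ᵥ y) (t, true, q) =
      (∑ q', Ψ ((t : ℕ) + 1) q q' * y (⟨(t : ℕ) + 1, h⟩, false, q'))
        + y (⟨(t : ℕ) + 1, h⟩, true, q) := by
  unfold Matrix.mulVec dotProduct
  rw [Fintype.sum_prod_type, Finset.sum_eq_single (⟨(t : ℕ) + 1, h⟩ : Fin M)]
  · rw [Fintype.sum_prod_type, Fintype.sum_bool, add_comm]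
    simp [XL, h2]
  · intro t' _ ht'
    apply Finset.sum_eq_zero
    intro k _
    have : ¬ ((t : ℕ) + 1 = (t' : ℕ)) := fun h' => ht' (Fin.ext h'.symm)
    simp [XL, this]
  · simp

lemma XL_mulVec_true' (Ψ : ℕ → Matrix Q Q ℂ) (y : Lab M Q → ℂ) (t : Fin M) (q : Q)
    (h2 : (t : ℕ) = 0) : (XL M Ψ *ᵥ y) (t, true, q) = 0 := by
  unfold Matrix.mulVec dotProduct
  apply Finset.sum_eq_zero
  rintro ⟨t', b, q'⟩ _
  by_cases h : (t : ℕ) + 1 = (t' : ℕ)
  · have h3 : ¬ (2 ≤ (t' : ℕ)) := by omega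
    cases b <;> simp [XL, h, h3]
  · simp [XL, h]

/-- columns of `U` and the matrix `Z` with `X U = U Z`: reduction of the sum at level `t` -/
lemma sum_reduce (L : Layout M Q z0 zi n) (U Z : Matrix (Lab M Q) (Lab M Q) ℂ)
    (hU : ∀ a k, L.idx k < L.idx a → U a k = 0) (t0 : Fin M) (k : Lab M Q)
    (hZe : ∀ l, Z l k ≠ 0 → l.2.2 = z0)
    (hZt : ∀ l, Z l k ≠ 0 → l.1 ≤ t0) (r : Lab M Q) (hr : r.1 = t0) :
    (U * Z) r k = U r (t0, false, z0) * Z (t0, false, z0) k
      + U r (t0, true, z0) * Z (t0, true, z0) k := by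
  rw [Matrix.mul_apply, Fintype.sum_prod_type, Finset.sum_eq_single t0]
  · rw [Fintype.sum_prod_type, Fintype.sum_bool, Finset.sum_eq_single z0,
      Finset.sum_eq_single z0, add_comm]
    · intro q _ hq
      by_cases hz : Z (t0, false, q) k = 0
      · rw [hz, mul_zero]
      · exact absurd (hZe _ hz) hq
    · simp
    · intro q _ hq
      by_cases hz : Z (t0, true, q) k = 0
      · rw [hz, mul_zero]
      · exact absurd (hZe _ hz) hq
    · simp
  · intro t _ ht
    apply Finset.sum_eq_zero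
    rintro ⟨b, q⟩ _
    by_cases hz : Z (t, b, q) k = 0
    · rw [hz, mul_zero]
    · have h1 : t < t0 := lt_of_le_of_ne (hZt _ hz) ht
      have h2 : U r (t, b, q) = 0 := by
        apply hU
        obtain ⟨r1, r2, r3⟩ := r
        simp only at hr
        subst hr
        exact L.i1 _ _ _ _ _ _ h1
      rw [h2, zero_mul]
  · simp

/-- **Analysis of the cell.** -/
theorem gadget_analysis (L : Layout M Q z0 zi n) (Ψ : ℕ → Matrix Q Q ℂ) (hM : 2 ≤ M)
    (U Z : Matrix (Lab M Q) (Lab M Q) ℂ)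
    (hU : ∀ a k, L.idx k < L.idx a → U a k = 0) (hUd : ∀ k, U k k ≠ 0)
    (hZ : ∀ l k, L.pos k < L.pos l → Z l k = 0) (hXU : XL M Ψ * U = U * Z) :
    ∃ x : Q → ℂ, x z0 ≠ 0 ∧ ∀ t : ℕ, 2 ≤ t → t < M → ∃ c : ℂ,
      Ψ t *ᵥ (fun q => U (⟨0, by omega⟩, false, q) (⟨0, by omega⟩, false, z0)) = c • x := by
  -- entries
  let a : Fin M → Q → ℂ := fun t q => U (t, false, q) (t, false, z0)
  let cF : Fin M → Q → ℂ := fun t q => U (t, false, q) (t, true, z0)
  let cT : Fin M → Q → ℂ := fun t q => U (t, true, q) (t, true, z0)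
  have ha0 : ∀ t, a t z0 ≠ 0 := fun t => hUd _
  have hc0 : ∀ t, cT t z0 ≠ 0 := fun t => hUd _
  have haT : ∀ t q, U (t, true, q) (t, false, z0) = 0 := fun t q => hU _ _ (L.i2 t z0 q)
  have hup : ∀ (t t' : Fin M) b b' q q', t < t' → U (t', b', q') (t, b, q) = 0 :=
    fun t t' b b' q q' h => hU _ _ (L.i1 t t' b b' q q' h)
  -- support of the columns of `Z` at the early labels
  have hZe : ∀ (t : Fin M) (b : Bool) (l : Lab M Q), Z l (t, b, z0) ≠ 0 → l.2.2 = z0 := by
    rintro t b ⟨t', b', q'⟩ h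
    by_contra hq
    exact h (hZ _ _ (L.p1 t b t' b' q' hq))
  have hZt : ∀ (t : Fin M) (b : Bool) (l : Lab M Q), Z l (t, b, z0) ≠ 0 → l.1 ≤ t := by
    rintro t b ⟨t', b', q'⟩ h
    have hq := hZe t b _ h
    simp only at hq
    subst hq
    by_contra ht
    exact h (hZ _ _ (L.p2 t t' b b' (not_le.1 ht)))
  -- `X U` at level `t` vanishes
  have hXUt : ∀ (t : Fin M) (b : Bool) (r : Lab M Q), r.1 = t →
      (XL M Ψ * U) r (t, b, z0) = 0 := by
    intro t b r hr
    rw [Matrix.mul_apply]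
    apply Finset.sum_eq_zero
    rintro ⟨t', b', q'⟩ _
    by_cases h : (r.1 : ℕ) + 1 = (t' : ℕ)
    · have h1 : t < t' := by
        rw [← hr]; show (r.1 : ℕ) < (t' : ℕ); omega
      rw [hup t t' b b' z0 q' h1, mul_zero]
    · simp [XL, h]
  -- the entries of `Z` at level `t` vanish
  have hZF : ∀ t : Fin M, Z (t, false, z0) (t, false, z0) = 0 ∧ Z (t, true, z0) (t, false, z0) = 0 := by
    intro t
    have h2 : Z (t, true, z0) (t, false, z0) = 0 := hZ _ _ (L.p2' t)
    refine ⟨?_, h2⟩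
    have h1 := hXUt t false (t, false, z0) rfl
    rw [hXU, sum_reduce L U Z hU t _ (hZe t false) (hZt t false) _ rfl, h2, mul_zero,
      add_zero] at h1
    exact (mul_eq_zero.1 h1).resolve_left (ha0 t)
  have hZT : ∀ t : Fin M, Z (t, false, z0) (t, true, z0) = 0 ∧ Z (t, true, z0) (t, true, z0) = 0 := by
    intro t
    have h2 : Z (t, true, z0) (t, true, z0) = 0 := by
      have h1 := hXUt t true (t, true, z0) rfl
      rw [hXU, sum_reduce L U Z hU t _ (hZe t true) (hZt t true) _ rfl, haT, zero_mul,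
        zero_add] at h1
      exact (mul_eq_zero.1 h1).resolve_left (hc0 t)
    refine ⟨?_, h2⟩
    have h1 := hXUt t true (t, false, z0) rfl
    rw [hXU, sum_reduce L U Z hU t _ (hZe t true) (hZt t true) _ rfl, h2, mul_zero,
      add_zero] at h1
    exact (mul_eq_zero.1 h1).resolve_left (ha0 t)
  -- level `t` from level `t + 1`
  have hZlt : ∀ (t s : Fin M) (b : Bool), (s : ℕ) + 1 = (t : ℕ) → ∀ l : Lab M Q,
      Z l (t, b, z0) ≠ 0 → l.1 ≤ s := by
    rintro t s b hst ⟨t', b', q'⟩ h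
    have h1 := hZt t b _ h
    have h2 := hZe t b _ h
    simp only at h1 h2
    subst h2
    rcases lt_or_eq_of_le h1 with h3 | h3
    · show t' ≤ s
      have : (t' : ℕ) < (t : ℕ) := h3
      show (t' : ℕ) ≤ (s : ℕ); omega
    · exfalso
      subst h3
      cases b <;> cases b'
      · exact h (hZF t').1
      · exact h (hZF t').2
      · exact h (hZT t').1
      · exact h (hZT t').2
  -- the four relations
  have hmv : ∀ (k r : Lab M Q), (XL M Ψ * U) r k = (XL M Ψ *ᵥ (fun l => U l k)) r := by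
    intro k r; rfl
  have rel : ∀ (t s : Fin M) (b : Bool) (hst : (s : ℕ) + 1 = (t : ℕ)), ∃ α β : ℂ,
      (∀ q, U (t, false, q) (t, b, z0) = a s q * α + cF s q * β) ∧
      (∀ q, (if 2 ≤ (t : ℕ) then
        (∑ q', Ψ (t : ℕ) q q' * U (t, false, q') (t, b, z0)) + U (t, true, q) (t, b, z0) else 0)
          = cT s q * β) := by
    intro t s b hst
    refine ⟨Z (s, false, z0) (t, b, z0), Z (s, true, z0) (t, b, z0), ?_, ?_⟩
    · intro q
      have hlt : (s : ℕ) + 1 < M := by rw [hst]; exact t.2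
      have h1 := XL_mulVec_false Ψ (fun l => U l (t, b, z0)) s q hlt
      rw [← hmv, hXU, sum_reduce L U Z hU s _ (hZe t b) (hZlt t s b hst) _ rfl] at h1
      have ht : (⟨(s : ℕ) + 1, hlt⟩ : Fin M) = t := Fin.ext hst
      rw [ht] at h1
      exact h1.symm
    · intro q
      have hlt : (s : ℕ) + 1 < M := by rw [hst]; exact t.2
      have ht : (⟨(s : ℕ) + 1, hlt⟩ : Fin M) = t := Fin.ext hst
      have hR := sum_reduce L U Z hU s _ (hZe t b) (hZlt t s b hst) (s, true, q) rfl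
      rw [haT, zero_mul, zero_add] at hR
      split_ifs with h2
      · have h1 := XL_mulVec_true Ψ (fun l => U l (t, b, z0)) s q hlt (by omega)
        rw [← hmv, hXU, hR, ht, hst] at h1
        exact h1.symm
      · have h1 := XL_mulVec_true' Ψ (fun l => U l (t, b, z0)) s q (by omega)
        rw [← hmv, hXU, hR] at h1
        exact h1.symm
  -- the induction
  have h0M : 0 < M := by omega
  have h1M : 1 < M := by omega
  let f0 : Fin M := ⟨0, h0M⟩
  let f1 : Fin M := ⟨1, h1M⟩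
  -- level one
  have base : (∃ α, ∀ q, a f1 q = a f0 q * α) ∧ (∃ α, ∀ q, cF f1 q = a f0 q * α) := by
    have h01 : ((f0 : Fin M) : ℕ) + 1 = ((f1 : Fin M) : ℕ) := rfl
    constructor
    · obtain ⟨α, β, hα, hβ⟩ := rel f1 f0 false h01
      have hβ0 : β = 0 := by
        have := hβ z0
        rw [if_neg (by show ¬ (2 ≤ 1); omega)] at this
        exact (mul_eq_zero.1 this.symm).resolve_left (hc0 f0)
      exact ⟨α, fun q => by rw [show a f1 q = _ from hα q, hβ0, mul_zero, add_zero]⟩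
    · obtain ⟨α, β, hα, hβ⟩ := rel f1 f0 true h01
      have hβ0 : β = 0 := by
        have := hβ z0
        rw [if_neg (by show ¬ (2 ≤ 1); omega)] at this
        exact (mul_eq_zero.1 this.symm).resolve_left (hc0 f0)
      exact ⟨α, fun q => by rw [show cF f1 q = _ from hα q, hβ0, mul_zero, add_zero]⟩
  have ind : ∀ t : ℕ, ∀ ht : t < M, 1 ≤ t →
      (∃ α, ∀ q, a ⟨t, ht⟩ q = a f0 q * α) ∧ (∃ α, ∀ q, cF ⟨t, ht⟩ q = a f0 q * α) ∧
      (∃ α, ∀ q, cT ⟨t, ht⟩ q = cT f1 q * α) ∧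
      (2 ≤ t → ∃ c : ℂ, Ψ t *ᵥ (a f0) = c • (cT f1)) := by
    intro t
    induction t with
    | zero => intro _ h; omega
    | succ t ih =>
      intro ht _
      rcases Nat.eq_zero_or_pos t with h0 | hpos
      · subst h0
        refine ⟨base.1, base.2, ⟨1, fun q => by rw [mul_one]⟩, fun h => by omega⟩
      · obtain ⟨⟨α1, h1⟩, ⟨α2, h2⟩, ⟨α3, h3⟩, -⟩ := ih (by omega) hpos
        have hst : (((⟨t, by omega⟩ : Fin M)) : ℕ) + 1 = ((⟨t + 1, ht⟩ : Fin M) : ℕ) := rfl
        obtain ⟨α, β, hα, hβ⟩ := rel ⟨t + 1, ht⟩ ⟨t, by omega⟩ false hst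
        obtain ⟨α', β', hα', hβ'⟩ := rel ⟨t + 1, ht⟩ ⟨t, by omega⟩ true hst
        have h2t : 2 ≤ t + 1 := by omega
        -- `a (t+1)` proportional to `a 0`
        have hA : ∀ q, a ⟨t + 1, ht⟩ q = a f0 q * (α1 * α + α2 * β) := by
          intro q
          rw [show a ⟨t + 1, ht⟩ q = _ from hα q, h1, h2]; ring
        have hγ : α1 * α + α2 * β ≠ 0 := by
          intro h
          have := hA z0
          rw [h, mul_zero] at this
          exact ha0 _ this
        have hΨ : ∀ q, (Ψ (t + 1) *ᵥ (a f0)) q = (α3 * β / (α1 * α + α2 * β)) * cT f1 q := by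
          intro q
          have h4 := hβ q
          rw [if_pos h2t, haT, add_zero, h3] at h4
          have h5 : (∑ q', Ψ (t + 1) q q' * U (⟨t + 1, ht⟩, false, q') (⟨t + 1, ht⟩, false, z0))
              = (α1 * α + α2 * β) * (Ψ (t + 1) *ᵥ (a f0)) q := by
            unfold Matrix.mulVec dotProduct
            rw [Finset.mul_sum]
            refine Finset.sum_congr rfl fun q' _ => ?_
            rw [show U (⟨t + 1, ht⟩, false, q') (⟨t + 1, ht⟩, false, z0) = _ from hA q']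
            ring
          have h4' : (∑ q', Ψ (t + 1) q q' * U (⟨t + 1, ht⟩, false, q') (⟨t + 1, ht⟩, false, z0))
              = cT f1 q * α3 * β := h4
          rw [h5] at h4'
          rw [div_mul_eq_mul_div, eq_div_iff hγ]
          linear_combination h4'
        refine ⟨⟨_, hA⟩, ⟨α1 * α' + α2 * β', ?_⟩, ⟨α3 * β' - (α1 * α' + α2 * β')
          * (α3 * β / (α1 * α + α2 * β)), ?_⟩, fun _ => ⟨α3 * β / (α1 * α + α2 * β), ?_⟩⟩
        · intro q
          rw [show cF ⟨t + 1, ht⟩ q = _ from hα' q, h1, h2]; ring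
        · intro q
          have h4 := hβ' q
          rw [if_pos h2t, h3] at h4
          have h5 : (∑ q', Ψ (t + 1) q q' * U (⟨t + 1, ht⟩, false, q') (⟨t + 1, ht⟩, true, z0))
              = (α1 * α' + α2 * β') * (Ψ (t + 1) *ᵥ (a f0)) q := by
            unfold Matrix.mulVec dotProduct
            rw [Finset.mul_sum]
            refine Finset.sum_congr rfl fun q' _ => ?_
            rw [hα' q', h1, h2]
            ring
          have h4' : (∑ q', Ψ (t + 1) q q' * U (⟨t + 1, ht⟩, false, q') (⟨t + 1, ht⟩, true, z0))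
              + cT ⟨t + 1, ht⟩ q = cT f1 q * α3 * β' := h4
          rw [h5, hΨ] at h4'
          linear_combination h4'
        · funext q
          rw [hΨ q]
          simp
  refine ⟨cT f1, hc0 f1, fun t h2 ht => ?_⟩
  exact (ind t ht (by omega)).2.2.2 h2

end Pool.Agent.Lib_helper58.Spr
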