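import Mathlib
import Pool.Agent.Lib_helper58.Spr.Gadget

/-!
# The gadget: curves in the cell
-/

set_option autoImplicit false

open Matrix

namespace Pool.Agent.Lib_helper58.Spr

variable {M : ℕ} {Q : Type} [Fintype Q] [DecidableEq Q] {z0 zi : Q} {n : ℕ}

/-- block diagonal matrices with blocks depending only on the block type -/
def blk (M : ℕ) (A : Bool → Matrix Q Q ℂ) : Matrix (Lab M Q) (Lab M Q) ℂ := fun a k =>
  if a.1 = k.1 ∧ a.2.1 = k.2.1 then A k.2.1 a.2.2 k.2.2 else 0

lemma blk_mul (A B : Bool → Matrix Q Q ℂ) :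
    blk M A * blk M B = blk M (fun b => A b * B b) := by
  ext ⟨t, b, q⟩ ⟨t', b', q'⟩
  rw [Matrix.mul_apply, Fintype.sum_prod_type, Finset.sum_eq_single t]
  · rw [Fintype.sum_prod_type, Finset.sum_eq_single b]
    · by_cases h : t = t' ∧ b = b'
      · obtain ⟨rfl, rfl⟩ := h
        simp [blk, Matrix.mul_apply]
      · simp [blk, h]
    · intro b'' _ hb
      apply Finset.sum_eq_zero
      intro q'' _
      have hb' : ¬ (b = b'') := fun h => hb h.symm
      simp [blk, hb']
    · simp
  · intro t'' _ ht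
    apply Finset.sum_eq_zero
    rintro ⟨b'', q''⟩ _
    have ht' : ¬ (t = t'') := fun h => ht h.symm
    simp [blk, ht']
  · simp

/-- block of the curve -/
def Gq (z0 zi : Q) (h : Q → ℂ) : Matrix Q Q ℂ := fun q' q =>
  if q = z0 then h q' else if q = zi then (if q' = z0 then 1 else 0) else if q' = q then 1 else 0

/-- unipotent factor -/
noncomputable def Uq (z0 : Q) (h : Q → ℂ) : Matrix Q Q ℂ := fun q' q =>
  if q = z0 then h q' / h z0 else if q' = q then 1 else 0

/-- right factor -/
noncomputable def Bq (z0 zi : Q) (h : Q → ℂ) : Matrix Q Q ℂ := fun q' q =>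
  if q = z0 then (if q' = z0 then h z0 else 0)
  else if q = zi then (if q' = z0 then 1 else - (h q' / h z0)) else if q' = q then 1 else 0

lemma Gq_eq (hne : z0 ≠ zi) (h : Q → ℂ) (h0 : h z0 ≠ 0) : Uq z0 h * Bq z0 zi h = Gq z0 zi h := by
  ext q' q
  rw [Matrix.mul_apply]
  by_cases hq : q = z0
  · subst hq
    rw [Finset.sum_eq_single q]
    · simp only [Uq, Bq, Gq, if_true]
      field_simp
    · intro l _ hl
      simp [Bq, hl]
    · simp
  by_cases hqi : q = zi
  · subst hqi
    have e1 : ∀ l, Uq z0 h q' l * Bq z0 q h l q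
        = (if l = z0 then h q' / h z0 else 0)
          - (if l = q' then (if q' = z0 then 0 else h q' / h z0) else 0) := by
      intro l
      by_cases hl : l = z0
      · subst hl
        by_cases hq' : l = q'
        · subst hq'; simp [Uq, Bq, hq]
        · simp [Uq, Bq, hq, hq']
      · by_cases hl' : l = q'
        · subst hl'; simp [Uq, Bq, hq, hl]
        · have : ¬ (q' = l) := fun h => hl' h.symm
          simp [Uq, hl, hl', this]
    rw [Finset.sum_congr rfl (fun l _ => e1 l), Finset.sum_sub_distrib]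
    simp only [Finset.sum_ite_eq', Finset.mem_univ, if_true, Gq, if_neg hq]
    by_cases hq' : q' = z0
    · subst hq'
      simp only [if_true, sub_zero]
      exact div_self h0
    · simp [hq']
  · rw [Finset.sum_eq_single q]
    · simp [Uq, Bq, Gq, hq, hqi]
    · intro l _ hl
      simp [Bq, hq, hqi, hl]
    · simp

/-- a vector in one block -/
def vec (t : Fin M) (b : Bool) (u : Q → ℂ) : Lab M Q → ℂ := fun a =>
  if a.1 = t ∧ a.2.1 = b then u a.2.2 else 0

lemma XL_vec_zero (Ψ : ℕ → Matrix Q Q ℂ) (t : Fin M) (ht : (t : ℕ) = 0) (b : Bool) (u : Q → ℂ) :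
    XL M Ψ *ᵥ vec t b u = 0 := by
  funext a
  unfold Matrix.mulVec dotProduct
  apply Finset.sum_eq_zero
  intro k _
  by_cases h : (a.1 : ℕ) + 1 = (k.1 : ℕ)
  · have : ¬ (k.1 = t ∧ k.2.1 = b) := by
      rintro ⟨h1, -⟩
      rw [h1, ht] at h; omega
    simp only [vec, if_neg this, mul_zero]
  · simp [XL, h]

lemma XL_vec_false (Ψ : ℕ → Matrix Q Q ℂ) (t s : Fin M) (hst : (s : ℕ) + 1 = (t : ℕ))
    (u : Q → ℂ) : XL M Ψ *ᵥ vec t false u
      = vec s false u + (if 2 ≤ (t : ℕ) then vec s true (Ψ t *ᵥ u) else 0) := by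
  funext ⟨r, b, q⟩
  by_cases hr : (r : ℕ) + 1 < M
  · have hrs : ((⟨(r : ℕ) + 1, hr⟩ : Fin M) = t) ↔ r = s := by
      constructor
      · intro h
        have : (r : ℕ) + 1 = (t : ℕ) := congrArg Fin.val h
        exact Fin.ext (by omega)
      · rintro rfl; exact Fin.ext hst
    cases b
    · rw [XL_mulVec_false Ψ _ r q hr]
      by_cases h2 : 2 ≤ (t : ℕ) <;> simp [vec, hrs, h2]
    · by_cases h2 : 2 ≤ (r : ℕ) + 1
      · rw [XL_mulVec_true Ψ _ r q hr h2]
        by_cases hrs' : r = s
        · subst hrs'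
          have h2' : 2 ≤ (t : ℕ) := by omega
          have ht : (⟨(r : ℕ) + 1, hr⟩ : Fin M) = t := hrs.2 rfl
          rw [ht, if_pos h2']
          simp [vec, Matrix.mulVec, dotProduct, hst]
        · have ht : ¬ ((⟨(r : ℕ) + 1, hr⟩ : Fin M) = t) := fun h => hrs' (hrs.1 h)
          by_cases h2' : 2 ≤ (t : ℕ) <;> simp [vec, ht, hrs', h2']
      · rw [XL_mulVec_true' Ψ _ r q (by omega)]
        by_cases h2' : 2 ≤ (t : ℕ)
        · have hrs' : ¬ (r = s) := by
            rintro rfl; omega
          simp [vec, hrs', h2']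
        · simp [vec, h2']
  · rw [XL_mulVec_top Ψ _ _ (by show M ≤ (r : ℕ) + 1; omega)]
    have hrs' : ¬ (r = s) := by
      rintro rfl
      have := t.2; omega
    by_cases h2' : 2 ≤ (t : ℕ) <;> simp [vec, hrs', h2']

lemma XL_vec_true (Ψ : ℕ → Matrix Q Q ℂ) (t s : Fin M) (hst : (s : ℕ) + 1 = (t : ℕ))
    (u : Q → ℂ) : XL M Ψ *ᵥ vec t true u = (if 2 ≤ (t : ℕ) then vec s true u else 0) := by
  funext ⟨r, b, q⟩
  by_cases hr : (r : ℕ) + 1 < M
  · have hrs : ((⟨(r : ℕ) + 1, hr⟩ : Fin M) = t) ↔ r = s := by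
      constructor
      · intro h
        have : (r : ℕ) + 1 = (t : ℕ) := congrArg Fin.val h
        exact Fin.ext (by omega)
      · rintro rfl; exact Fin.ext hst
    cases b
    · rw [XL_mulVec_false Ψ _ r q hr]
      by_cases h2 : 2 ≤ (t : ℕ) <;> simp [vec, h2]
    · by_cases h2 : 2 ≤ (r : ℕ) + 1
      · rw [XL_mulVec_true Ψ _ r q hr h2]
        by_cases hrs' : r = s
        · subst hrs'
          have h2' : 2 ≤ (t : ℕ) := by omega
          have ht : (⟨(r : ℕ) + 1, hr⟩ : Fin M) = t := hrs.2 rfl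
          rw [ht, if_pos h2']
          simp [vec]
        · have ht : ¬ ((⟨(r : ℕ) + 1, hr⟩ : Fin M) = t) := fun h => hrs' (hrs.1 h)
          by_cases h2' : 2 ≤ (t : ℕ) <;> simp [vec, ht, hrs', h2']
      · rw [XL_mulVec_true' Ψ _ r q (by omega)]
        by_cases h2' : 2 ≤ (t : ℕ)
        · have hrs' : ¬ (r = s) := by
            rintro rfl; omega
          simp [vec, hrs', h2']
        · simp [h2']
  · rw [XL_mulVec_top Ψ _ _ (by show M ≤ (r : ℕ) + 1; omega)]
    have hrs' : ¬ (r = s) := by
      rintro rfl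
      have := t.2; omega
    by_cases h2' : 2 ≤ (t : ℕ) <;> simp [vec, hrs', h2']

/-- the span of the columns of `G` at positions `≤ pos k` -/
noncomputable def colSpan (L : Layout M Q z0 zi n) (G : Matrix (Lab M Q) (Lab M Q) ℂ)
    (k : Lab M Q) : Submodule ℂ (Lab M Q → ℂ) :=
  Submodule.map G.mulVecLin
    { carrier := {y | ∀ l, L.pos k < L.pos l → y l = 0}
      add_mem' := fun {x y} hx hy l hl => by rw [Pi.add_apply, hx l hl, hy l hl, add_zero]
      zero_mem' := fun l _ => rfl
      smul_mem' := fun c x hx l hl => by rw [Pi.smul_apply, hx l hl, smul_zero] }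

lemma col_mem (L : Layout M Q z0 zi n) (G : Matrix (Lab M Q) (Lab M Q) ℂ) {k l : Lab M Q}
    (h : L.pos l ≤ L.pos k) : (fun a => G a l) ∈ colSpan L G k := by
  refine ⟨Pi.single l 1, ?_, ?_⟩
  · intro m hm
    have : m ≠ l := by
      rintro rfl; exact absurd h (not_le.2 hm)
    simp [this]
  · rw [Matrix.mulVecLin_apply, Matrix.mulVec_single_one]
    rfl

/-- the matrix of the curve -/
noncomputable def Gm (M : ℕ) (z0 zi : Q) (h : Bool → Q → ℂ) : Matrix (Lab M Q) (Lab M Q) ℂ :=
  blk M (fun b => Gq z0 zi (h b))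

lemma Gm_col_pivot (h : Bool → Q → ℂ) (t : Fin M) (b : Bool) :
    (fun a => Gm M z0 zi h a (t, b, z0)) = vec t b (h b) := by
  funext a
  simp [Gm, blk, Gq, vec]

lemma Gm_col_inf (hne : z0 ≠ zi) (h : Bool → Q → ℂ) (t : Fin M) (b : Bool) :
    (fun a => Gm M z0 zi h a (t, b, zi)) = vec t b (Pi.single z0 1) := by
  funext a
  simp [Gm, blk, Gq, vec, hne.symm, Pi.single_apply]

lemma Gm_col_other (h : Bool → Q → ℂ) (t : Fin M) (b : Bool) {q : Q} (hq : q ≠ z0)
    (hqi : q ≠ zi) : (fun a => Gm M z0 zi h a (t, b, q)) = vec t b (Pi.single q 1) := by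
  funext a
  simp [Gm, blk, Gq, vec, hq, hqi, Pi.single_apply]

/-- a whole level lies in the span as soon as its labels are at earlier positions -/
lemma level_mem (L : Layout M Q z0 zi n) (hne : z0 ≠ zi) (h : Bool → Q → ℂ)
    (hi : ∀ b, h b zi = 1) (k : Lab M Q) (t : Fin M)
    (hpos : ∀ b q, L.pos (t, b, q) ≤ L.pos k) (b : Bool) (u : Q → ℂ) :
    vec t b u ∈ colSpan L (Gm M z0 zi h) k := by
  -- basis vectors
  have h1 : ∀ q, q ≠ zi → vec t b (Pi.single q 1) ∈ colSpan L (Gm M z0 zi h) k := by
    intro q hq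
    by_cases hq0 : q = z0
    · subst hq0
      rw [← Gm_col_inf hne h t b]
      exact col_mem L _ (hpos b zi)
    · rw [← Gm_col_other h t b hq0 hq]
      exact col_mem L _ (hpos b q)
  have hvec_sum : ∀ w : Q → ℂ, vec t b w = ∑ q, w q • vec t b (Pi.single q 1) := by
    intro w
    funext a
    rw [Finset.sum_apply]
    simp only [Pi.smul_apply, vec, smul_eq_mul]
    by_cases ha : a.1 = t ∧ a.2.1 = b
    · simp [ha, Pi.single_apply]
    · simp [ha]
  have h2 : vec t b (Pi.single zi 1) ∈ colSpan L (Gm M z0 zi h) k := by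
    have e1 : vec t b (Pi.single zi 1)
        = vec t b (h b) - ∑ q ∈ Finset.univ.erase zi, h b q • vec t b (Pi.single q 1) := by
      rw [hvec_sum (h b), ← Finset.add_sum_erase _ _ (Finset.mem_univ zi), hi b, one_smul]
      abel
    rw [e1]
    apply Submodule.sub_mem
    · rw [← Gm_col_pivot (z0 := z0) (zi := zi) h t b]
      exact col_mem L _ (hpos b z0)
    · apply Submodule.sum_mem
      intro q hq
      exact Submodule.smul_mem _ _ (h1 q (Finset.ne_of_mem_erase hq))
  rw [hvec_sum u]
  apply Submodule.sum_mem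
  intro q _
  apply Submodule.smul_mem
  by_cases hq : q = zi
  · rw [hq]; exact h2
  · exact h1 q hq

/-- `X G = G Y` with `Y` upper triangular for the position order -/
lemma exists_Y (L : Layout M Q z0 zi n) (hne : z0 ≠ zi) (Ψ : ℕ → Matrix Q Q ℂ)
    (h : Bool → Q → ℂ) (hi : ∀ b, h b zi = 1)
    (hΨ : ∀ t : ℕ, 2 ≤ t → t < M → ∃ c : ℂ, Ψ t *ᵥ (h false) = c • (h true)) :
    ∃ Y : Matrix (Lab M Q) (Lab M Q) ℂ, (∀ l k, L.pos k < L.pos l → Y l k = 0) ∧
      XL M Ψ * Gm M z0 zi h = Gm M z0 zi h * Y := by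
  have key : ∀ k : Lab M Q, (XL M Ψ *ᵥ fun a => Gm M z0 zi h a k) ∈
      colSpan L (Gm M z0 zi h) k := by
    rintro ⟨t, b, q⟩
    by_cases ht : (t : ℕ) = 0
    · have : ∃ u, (fun a => Gm M z0 zi h a (t, b, q)) = vec t b u := by
        by_cases hq : q = z0
        · subst hq; exact ⟨_, Gm_col_pivot h t b⟩
        · by_cases hqi : q = zi
          · subst hqi; exact ⟨_, Gm_col_inf hne h t b⟩
          · exact ⟨_, Gm_col_other h t b hq hqi⟩
      obtain ⟨u, hu⟩ := this
      rw [hu, XL_vec_zero Ψ t ht]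
      exact Submodule.zero_mem _
    · -- previous level
      have hs : (t : ℕ) - 1 < M := by have := t.2; omega
      let s : Fin M := ⟨(t : ℕ) - 1, hs⟩
      have hst : (s : ℕ) + 1 = (t : ℕ) := by show (t : ℕ) - 1 + 1 = (t : ℕ); omega
      have hslt : s < t := by show (s : ℕ) < (t : ℕ); omega
      by_cases hq : q = z0
      · subst hq
        rw [Gm_col_pivot h t b]
        cases b
        · rw [XL_vec_false Ψ t s hst]
          apply Submodule.add_mem
          · rw [← Gm_col_pivot (z0 := q) (zi := zi) h s false]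
            exact col_mem L _ (L.p2 _ _ _ _ hslt).le
          · split_ifs with h2
            · obtain ⟨c, hc⟩ := hΨ t h2 t.2
              rw [hc]
              have : vec s true (c • h true) = c • vec s true (h true) := by
                funext a
                simp [vec]
              rw [this]
              apply Submodule.smul_mem
              rw [← Gm_col_pivot (z0 := q) (zi := zi) h s true]
              exact col_mem L _ (L.p2 _ _ _ _ hslt).le
            · exact Submodule.zero_mem _
        · rw [XL_vec_true Ψ t s hst]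
          split_ifs with h2
          · rw [← Gm_col_pivot (z0 := q) (zi := zi) h s true]
            exact col_mem L _ (L.p2 _ _ _ _ hslt).le
          · exact Submodule.zero_mem _
      · have : ∃ u, (fun a => Gm M z0 zi h a (t, b, q)) = vec t b u := by
          by_cases hqi : q = zi
          · subst hqi; exact ⟨_, Gm_col_inf hne h t b⟩
          · exact ⟨_, Gm_col_other h t b hq hqi⟩
        obtain ⟨u, hu⟩ := this
        rw [hu]
        have hlev : ∀ b' q', L.pos (s, b', q') ≤ L.pos (t, b, q) := by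
          intro b' q'
          by_cases hq' : q' = z0
          · subst hq'; exact (L.p1 _ _ _ _ _ hq).le
          · exact (L.p3 _ _ _ _ _ _ hslt hq' hq).le
        cases b
        · rw [XL_vec_false Ψ t s hst]
          apply Submodule.add_mem
          · exact level_mem L hne h hi _ s hlev false u
          · split_ifs
            · exact level_mem L hne h hi _ s hlev true _
            · exact Submodule.zero_mem _
        · rw [XL_vec_true Ψ t s hst]
          split_ifs
          · exact level_mem L hne h hi _ s hlev true _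
          · exact Submodule.zero_mem _
  choose y hy1 hy2 using key
  refine ⟨fun l k => y k l, fun l k hlk => hy1 k l hlk, ?_⟩
  ext a k
  have := congrFun (hy2 k) a
  rw [Matrix.mulVecLin_apply] at this
  exact this.symm

end Pool.Agent.Lib_helper58.Spr
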