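import Mathlib

/-!
# Springer fibres, Schubert cells and Zariski closures in `GL_n(ℂ)/B`, through matrices
-/

set_option autoImplicit false

open Matrix

namespace Pool.Agent.Lib_helper58.Spr

variable {n : ℕ}

/-- upper triangular matrices: the Lie algebra `𝔟` -/
def UT (M : Matrix (Fin n) (Fin n) ℂ) : Prop := ∀ i j : Fin n, j < i → M i j = 0

/-- the Borel subgroup `B` of invertible upper triangular matrices -/
def Borel (b : Matrix (Fin n) (Fin n) ℂ) : Prop := UT b ∧ IsUnit b.det

/-- the permutation matrix of `w`: column `k` is the basis vector `e_{w k}` -/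
def perm (w : Equiv.Perm (Fin n)) : Matrix (Fin n) (Fin n) ℂ :=
  Matrix.of fun i k => if i = w k then 1 else 0

/-- `gB` lies in the Springer fibre of `X`: `g⁻¹ X g ∈ 𝔟` -/
def InSpringer (X g : Matrix (Fin n) (Fin n) ℂ) : Prop := UT (g⁻¹ * X * g)

/-- the preimage in `GL_n(ℂ)` of the Springer Schubert cell `C_w ∩ S_X`, `C_w = BwB/B` -/
def Cell (X : Matrix (Fin n) (Fin n) ℂ) (w : Equiv.Perm (Fin n)) :
    Set (Matrix (Fin n) (Fin n) ℂ) :=
  {g | (∃ b b', Borel b ∧ Borel b' ∧ g = b * perm w * b') ∧ InSpringer X g}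

/-- `vB` lies in the Zariski closure of `C_w ∩ S_X`: every polynomial in the matrix entries that
vanishes on the preimage of `C_w ∩ S_X` in `GL_n(ℂ)` vanishes at the permutation matrix of `v` -/
def InClosure (X : Matrix (Fin n) (Fin n) ℂ) (v w : Equiv.Perm (Fin n)) : Prop :=
  ∀ P : MvPolynomial (Fin n × Fin n) ℂ,
    (∀ g ∈ Cell X w, MvPolynomial.eval (fun p => g p.1 p.2) P = 0) →
      MvPolynomial.eval (fun p => perm v p.1 p.2) P = 0

lemma UT.blockTriangular {M : Matrix (Fin n) (Fin n) ℂ} (h : UT M) : M.BlockTriangular id :=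
  fun i j hij => h i j hij

lemma det_perm_isUnit (w : Equiv.Perm (Fin n)) : IsUnit (perm w).det := by
  have : perm w = (w.symm.toPEquiv.toMatrix : Matrix (Fin n) (Fin n) ℂ) := by
    ext i k
    simp only [perm, Matrix.of_apply, PEquiv.toMatrix_apply, Equiv.toPEquiv_apply,
      Option.mem_def, Option.some.injEq]
    congr 1
    rw [eq_iff_iff]
    constructor
    · rintro rfl; simp
    · rintro h; rw [← h]; simp
  rw [this, Matrix.det_permutation]
  exact (Units.isUnit _).map (Int.castRingHom ℂ)

/-- sufficient: `X g = g Y` with `Y` upper triangular -/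
lemma inSpringer_of_mul {X g Y : Matrix (Fin n) (Fin n) ℂ} (hg : IsUnit g.det)
    (h : X * g = g * Y) (hY : UT Y) : InSpringer X g := by
  unfold InSpringer
  rw [Matrix.mul_assoc, h, ← Matrix.mul_assoc, Matrix.nonsing_inv_mul _ hg, Matrix.one_mul]
  exact hY

/-- a continuous curve in the cell away from `0` ending at `perm v` -/
lemma inClosure_of_curve {X : Matrix (Fin n) (Fin n) ℂ} {v w : Equiv.Perm (Fin n)}
    (g : ℂ → Matrix (Fin n) (Fin n) ℂ) (hc : ∀ i j, Continuous fun s => g s i j)
    (h0 : g 0 = perm v) (hs : ∀ s : ℂ, s ≠ 0 → g s ∈ Cell X w) : InClosure X v w := by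
  intro P hP
  have hcont : Continuous fun s : ℂ => MvPolynomial.eval (fun p : Fin n × Fin n => g s p.1 p.2) P :=
    (MvPolynomial.continuous_eval P).comp (continuous_pi fun p => hc p.1 p.2)
  have hzero : ∀ s ∈ ({0}ᶜ : Set ℂ),
      MvPolynomial.eval (fun p : Fin n × Fin n => g s p.1 p.2) P = 0 :=
    fun s hs' => hP _ (hs s hs')
  have hdense : Dense ({0}ᶜ : Set ℂ) := dense_compl_singleton 0
  have := hdense.closure_eq ▸ (Set.mem_univ (0 : ℂ))
  have hall : (0 : ℂ) ∈ {s : ℂ | MvPolynomial.eval (fun p : Fin n × Fin n => g s p.1 p.2) P = 0} :=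
    (isClosed_eq hcont continuous_const).closure_subset_iff.2 hzero this
  rw [← h0]
  exact hall

/-- from the closure to a point of the cell with a prescribed non-zero coordinate -/
lemma exists_of_inClosure {X : Matrix (Fin n) (Fin n) ℂ} {v w : Equiv.Perm (Fin n)}
    (h : InClosure X v w) (i k : Fin n) (hik : v k = i) :
    ∃ g ∈ Cell X w, g i k ≠ 0 := by
  by_contra hcon
  push Not at hcon
  have := h (MvPolynomial.X (i, k)) (fun g hg => by simpa using hcon g hg)
  simp [perm, hik] at this

end Pool.Agent.Lib_helper58.Spr
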