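import Mathlib
import Pool.Agent.Lib_helper58.Spr.Defs
import Pool.Agent.Lib_helper58.Spr.Curve

/-!
# The gadget on `Fin n`
-/

set_option autoImplicit false

open Matrix

namespace Pool.Agent.Lib_helper58.Spr

variable {M : ℕ} {Q : Type} [Fintype Q] [DecidableEq Q] {z0 zi : Q} {n : ℕ}

/-- the permutation `w` of a layout -/
def Layout.w (L : Layout M Q z0 zi n) : Equiv.Perm (Fin n) := L.pos.symm.trans L.idx

/-- exchange of `z0` and `zi` in every block -/
def sw (M : ℕ) (z0 zi : Q) : Lab M Q ≃ Lab M Q :=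
  Equiv.prodCongr (Equiv.refl _) (Equiv.prodCongr (Equiv.refl _) (Equiv.swap z0 zi))

lemma sw_apply (t : Fin M) (b : Bool) (q : Q) : sw M z0 zi (t, b, q) = (t, b, Equiv.swap z0 zi q) :=
  rfl

/-- the permutation `v` of a layout -/
def Layout.v (L : Layout M Q z0 zi n) : Equiv.Perm (Fin n) :=
  (L.pos.symm.trans (sw M z0 zi)).trans L.idx

lemma det_ne_zero_of_diag {b : Matrix (Fin n) (Fin n) ℂ} (h : UT b) (hd : ∀ i, b i i ≠ 0) :
    IsUnit b.det := by
  have : b.det = ∏ i, b i i := Matrix.det_of_isUpperTriangular h.blockTriangular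
  rw [this, isUnit_iff_ne_zero]
  exact Finset.prod_ne_zero_iff.2 fun i _ => hd i

lemma diag_ne_zero_of_borel {b : Matrix (Fin n) (Fin n) ℂ} (h : Borel b) (i : Fin n) :
    b i i ≠ 0 := by
  have h1 : b.det = ∏ i, b i i := Matrix.det_of_isUpperTriangular h.1.blockTriangular
  have h2 := h.2
  rw [h1, isUnit_iff_ne_zero] at h2
  exact Finset.prod_ne_zero_iff.1 h2 i (Finset.mem_univ i)

lemma UT.mul {a b : Matrix (Fin n) (Fin n) ℂ} (ha : UT a) (hb : UT b) : UT (a * b) :=
  fun i j hij => (ha.blockTriangular.mul hb.blockTriangular) hij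

lemma UT.inv {b : Matrix (Fin n) (Fin n) ℂ} (h : Borel b) : UT b⁻¹ := by
  haveI : Invertible b := b.invertibleOfIsUnitDet h.2
  intro i j hij
  exact (Matrix.blockTriangular_inv_of_blockTriangular h.1.blockTriangular) hij

lemma perm_w_eq (L : Layout M Q z0 zi n) :
    perm L.w = (1 : Matrix (Lab M Q) (Lab M Q) ℂ).submatrix L.idx.symm L.pos.symm := by
  ext i k
  simp only [perm, Matrix.of_apply, Matrix.submatrix_apply, Matrix.one_apply, Layout.w,
    Equiv.trans_apply]
  congr 1
  rw [eq_iff_iff, Equiv.symm_apply_eq]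

lemma perm_v_apply (L : Layout M Q z0 zi n) (i k : Fin n) :
    perm L.v i k = if L.idx.symm i = sw M z0 zi (L.pos.symm k) then 1 else 0 := by
  simp only [perm, Matrix.of_apply, Layout.v, Equiv.trans_apply]
  congr 1
  rw [eq_iff_iff, Equiv.symm_apply_eq]

lemma sw_sw (a : Lab M Q) : sw M z0 zi (sw M z0 zi a) = a := by
  obtain ⟨t, b, q⟩ := a
  rw [sw_apply, sw_apply, Equiv.swap_apply_self]

lemma cell_of_label (L : Layout M Q z0 zi n) {X U B Y G : Matrix (Lab M Q) (Lab M Q) ℂ}
    (hU : ∀ a k, L.idx k < L.idx a → U a k = 0) (hUd : ∀ k, U k k ≠ 0)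
    (hB : ∀ l k, L.pos k < L.pos l → B l k = 0) (hBd : ∀ k, B k k ≠ 0)
    (hG : G = U * B) (hY : ∀ l k, L.pos k < L.pos l → Y l k = 0) (hX : X * G = G * Y) :
    G.submatrix L.idx.symm L.pos.symm ∈ Cell (X.submatrix L.idx.symm L.idx.symm) L.w := by
  have hUb : Borel (U.submatrix L.idx.symm L.idx.symm) := by
    have h1 : UT (U.submatrix L.idx.symm L.idx.symm) := by
      intro i j hij
      exact hU _ _ (by simpa using hij)
    exact ⟨h1, det_ne_zero_of_diag h1 (fun i => hUd _)⟩
  have hBb : Borel (B.submatrix L.pos.symm L.pos.symm) := by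
    have h1 : UT (B.submatrix L.pos.symm L.pos.symm) := by
      intro i j hij
      exact hB _ _ (by simpa using hij)
    exact ⟨h1, det_ne_zero_of_diag h1 (fun i => hBd _)⟩
  have hfac : G.submatrix L.idx.symm L.pos.symm
      = U.submatrix L.idx.symm L.idx.symm * perm L.w * B.submatrix L.pos.symm L.pos.symm := by
    rw [perm_w_eq, Matrix.submatrix_mul_equiv, Matrix.submatrix_mul_equiv, Matrix.mul_one, hG]
  have hdet : IsUnit (G.submatrix L.idx.symm L.pos.symm).det := by
    rw [hfac, Matrix.det_mul, Matrix.det_mul]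
    exact (hUb.2.mul (det_perm_isUnit _)).mul hBb.2
  refine ⟨⟨_, _, hUb, hBb, hfac⟩, ?_⟩
  apply inSpringer_of_mul hdet (Y := Y.submatrix L.pos.symm L.pos.symm)
  · rw [Matrix.submatrix_mul_equiv, Matrix.submatrix_mul_equiv, hX]
  · intro i j hij
    exact hY _ _ (by simpa using hij)

lemma label_of_cell (L : Layout M Q z0 zi n) {X : Matrix (Lab M Q) (Lab M Q) ℂ}
    {g : Matrix (Fin n) (Fin n) ℂ} (hg : g ∈ Cell (X.submatrix L.idx.symm L.idx.symm) L.w) :
    ∃ U Z B : Matrix (Lab M Q) (Lab M Q) ℂ,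
      (∀ a k, L.idx k < L.idx a → U a k = 0) ∧ (∀ k, U k k ≠ 0) ∧
      (∀ l k, L.pos k < L.pos l → Z l k = 0) ∧ (∀ l k, L.pos k < L.pos l → B l k = 0) ∧
      X * U = U * Z ∧ g.submatrix L.idx L.pos = U * B := by
  obtain ⟨⟨b, b', hb, hb', hfac⟩, hS⟩ := hg
  set XF := X.submatrix L.idx.symm L.idx.symm with hXF
  have hdet : IsUnit g.det := by
    rw [hfac, Matrix.det_mul, Matrix.det_mul]
    exact (hb.2.mul (det_perm_isUnit _)).mul hb'.2
  set Y := g⁻¹ * XF * g with hY
  have hXg : XF * g = g * Y := by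
    rw [hY, ← Matrix.mul_assoc, ← Matrix.mul_assoc, Matrix.mul_nonsing_inv _ hdet, Matrix.one_mul]
  set D := b * perm L.w with hD
  have hXD : XF * D = D * (b' * Y * b'⁻¹) := by
    have h1 : XF * (D * b') = D * b' * Y := by rw [← hfac]; exact hXg
    calc XF * D = XF * (D * b') * b'⁻¹ := by
          rw [Matrix.mul_assoc, Matrix.mul_assoc, Matrix.mul_nonsing_inv _ hb'.2, Matrix.mul_one]
      _ = D * (b' * Y * b'⁻¹) := by rw [h1]; simp only [Matrix.mul_assoc]
  have hZUT : UT (b' * Y * b'⁻¹) := (hb'.1.mul hS).mul (UT.inv hb')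
  have hDl : D.submatrix L.idx L.pos = b.submatrix L.idx L.idx := by
    rw [hD, perm_w_eq, ← Matrix.submatrix_mul_equiv b _ L.idx L.idx L.pos]
    rw [Matrix.submatrix_submatrix]
    have : ((L.idx.symm : Fin n → Lab M Q) ∘ L.idx) = id := by funext x; simp
    have h2 : ((L.pos.symm : Fin n → Lab M Q) ∘ L.pos) = id := by funext x; simp
    rw [this, h2, Matrix.submatrix_id_id, Matrix.mul_one]
  have hXl : XF.submatrix L.idx L.idx = X := by
    rw [hXF, Matrix.submatrix_submatrix]
    have : ((L.idx.symm : Fin n → Lab M Q) ∘ L.idx) = id := by funext x; simp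
    rw [this, Matrix.submatrix_id_id]
  refine ⟨b.submatrix L.idx L.idx, (b' * Y * b'⁻¹).submatrix L.pos L.pos,
    b'.submatrix L.pos L.pos, ?_, ?_, ?_, ?_, ?_, ?_⟩
  · intro a k h; exact hb.1 _ _ h
  · intro k; exact diag_ne_zero_of_borel hb _
  · intro l k h; exact hZUT _ _ h
  · intro l k h; exact hb'.1 _ _ h
  · rw [← hDl]
    conv_lhs => rw [← hXl]
    rw [Matrix.submatrix_mul_equiv, Matrix.submatrix_mul_equiv, hXD]
  · rw [← hDl, Matrix.submatrix_mul_equiv, hfac]

/-! ### properties of the matrix -/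

lemma XL_ne_zero {Ψ : ℕ → Matrix Q Q ℂ} {a k : Lab M Q} (h : XL M Ψ a k ≠ 0) :
    (a.1 : ℕ) + 1 = (k.1 : ℕ) := by
  by_contra hc
  exact h (by simp [XL, hc])

lemma XL_pow (Ψ : ℕ → Matrix Q Q ℂ) (j : ℕ) : ∀ a k : Lab M Q, (XL M Ψ ^ j) a k ≠ 0 →
    (a.1 : ℕ) + j = (k.1 : ℕ) := by
  induction j with
  | zero =>
    intro a k h
    rw [pow_zero, Matrix.one_apply] at h
    have : a = k := by by_contra hc; exact h (if_neg hc)
    rw [this, add_zero]
  | succ j ih =>
    intro a k h
    rw [pow_succ, Matrix.mul_apply] at h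
    obtain ⟨l, _, hl⟩ := Finset.exists_ne_zero_of_sum_ne_zero h
    have h1 := ih a l (left_ne_zero_of_mul hl)
    have h2 := XL_ne_zero (right_ne_zero_of_mul hl)
    omega

lemma XL_nilpotent (Ψ : ℕ → Matrix Q Q ℂ) : IsNilpotent (XL M Ψ) := by
  refine ⟨M, ?_⟩
  ext a k
  rw [Matrix.zero_apply]
  by_contra h
  have := XL_pow Ψ M a k h
  have := k.1.2
  omega

/-- `XL` is upper triangular in the position order, after relabelling columns and rows by an
involution fixing or exchanging pivots -/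
lemma XL_pos (L : Layout M Q z0 zi n) (Ψ : ℕ → Matrix Q Q ℂ)
    (h0 : ∀ t, 2 ≤ t → t < M → ∀ q, q ≠ z0 → Ψ t q z0 = 0) (l k : Lab M Q)
    (hlk : L.pos k < L.pos l) : XL M Ψ l k = 0 := by
  by_contra h
  have h1 := XL_ne_zero h
  obtain ⟨t, b, q⟩ := k
  obtain ⟨t', b', q'⟩ := l
  have htt : t' < t := by show (t' : ℕ) < (t : ℕ); simp only at h1; omega
  by_cases hq : q = z0
  · subst hq
    have hq' : q' = q := by
      by_contra hne
      apply h
      cases b <;> cases b'
      · simp [XL, hne]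
      · by_cases h2 : 2 ≤ (t : ℕ)
        · simp [XL, h2, h0 _ h2 t.2 q' hne]
        · simp [XL, h2]
      · simp [XL]
      · simp [XL, hne]
    subst hq'
    exact absurd (L.p2 t' t b' b htt) (not_lt.2 hlk.le)
  · by_cases hq' : q' = z0
    · subst hq'
      exact absurd (L.p1 t' b' t b q hq) (not_lt.2 hlk.le)
    · exact absurd (L.p3 t' t b' b q' q htt hq' hq) (not_lt.2 hlk.le)

lemma XL_pos_sw (L : Layout M Q z0 zi n) (hne : z0 ≠ zi) (Ψ : ℕ → Matrix Q Q ℂ)
    (hi : ∀ t, 2 ≤ t → t < M → ∀ q, q ≠ zi → Ψ t q zi = 0) (l k : Lab M Q)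
    (hlk : L.pos k < L.pos l) : XL M Ψ (sw M z0 zi l) (sw M z0 zi k) = 0 := by
  by_contra h
  have h1 := XL_ne_zero h
  obtain ⟨t, b, q⟩ := k
  obtain ⟨t', b', q'⟩ := l
  rw [sw_apply, sw_apply] at h1 h
  have htt : t' < t := by show (t' : ℕ) < (t : ℕ); simp only at h1; omega
  by_cases hq : q = z0
  · subst hq
    rw [Equiv.swap_apply_left] at h
    have hq' : Equiv.swap q zi q' = zi := by
      by_contra hne'
      apply h
      cases b <;> cases b'
      · simp [XL, hne']
      · by_cases h2 : 2 ≤ (t : ℕ)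
        · simp [XL, h2, hi _ h2 t.2 _ hne']
        · simp [XL, h2]
      · simp [XL]
      · simp [XL, hne']
    have hq'' : q' = q := by
      have := congrArg (Equiv.swap q zi) hq'
      rwa [Equiv.swap_apply_self, Equiv.swap_apply_right] at this
    subst hq''
    exact absurd (L.p2 t' t b' b htt) (not_lt.2 hlk.le)
  · by_cases hq' : q' = z0
    · subst hq'
      exact absurd (L.p1 t' b' t b q hq) (not_lt.2 hlk.le)
    · exact absurd (L.p3 t' t b' b q' q htt hq' hq) (not_lt.2 hlk.le)

/-- **The gadget theorem.** -/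
theorem gadget (hM : 2 ≤ M) (hne : z0 ≠ zi) (hn : Fintype.card (Lab M Q) = n) :
    ∃ (Xf : (ℕ → Matrix Q Q ℂ) → Matrix (Fin n) (Fin n) ℂ) (v w : Equiv.Perm (Fin n)),
      (w⁻¹ * v) ^ 2 = 1 ∧
      (∀ i j, (∀ Ψ, Xf Ψ i j = 0) ∨ (∀ Ψ, Xf Ψ i j = 1) ∨
        ∃ t q q', 2 ≤ t ∧ t < M ∧ ∀ Ψ, Xf Ψ i j = Ψ t q q') ∧
      ∀ Ψ : ℕ → Matrix Q Q ℂ,
      (∀ t, 2 ≤ t → t < M → ∀ q, q ≠ z0 → Ψ t q z0 = 0) →
      (∀ t, 2 ≤ t → t < M → ∀ q, q ≠ zi → Ψ t q zi = 0) →
      IsNilpotent (Xf Ψ) ∧ (∀ i j, j ≤ i → Xf Ψ i j = 0) ∧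
      InSpringer (Xf Ψ) (perm v) ∧ InSpringer (Xf Ψ) (perm w) ∧
      (InClosure (Xf Ψ) v w → ∃ z x : Q → ℂ, z z0 = 1 ∧ z zi ≠ 0 ∧ x z0 = 1 ∧
        ∀ t : ℕ, 2 ≤ t → t < M → Ψ t *ᵥ z = ((Ψ t *ᵥ z) z0) • x) ∧
      (∀ h : ℂ → Bool → Q → ℂ, (∀ b q, Continuous fun s => h s b q) →
        (∀ b, h 0 b = Pi.single zi 1) → (∀ s b, h s b zi = 1) →
        (∀ s b, s ≠ 0 → h s b z0 ≠ 0) →
        (∀ s, s ≠ 0 → ∀ t : ℕ, 2 ≤ t → t < M → ∃ c : ℂ, Ψ t *ᵥ (h s false) = c • (h s true)) →
        InClosure (Xf Ψ) v w) := by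
  obtain ⟨L⟩ := exists_layout M Q z0 zi hne hn
  refine ⟨fun Ψ => (XL M Ψ).submatrix L.idx.symm L.idx.symm, L.v, L.w, ?_, ?_,
    fun Ψ h0 hi => ⟨?_, ?_, ?_, ?_, ?_, ?_⟩⟩
  · have h1 : ∀ k, (L.w⁻¹ * L.v) k = L.pos (sw M z0 zi (L.pos.symm k)) := by
      intro k
      rw [Equiv.Perm.mul_apply, Equiv.Perm.inv_eq_iff_eq]
      simp [Layout.v, Layout.w]
    ext k
    rw [pow_two, Equiv.Perm.mul_apply, h1, h1, Equiv.symm_apply_apply, sw_sw,
      Equiv.apply_symm_apply]
    rfl
  · intro i j
    simp only [Matrix.submatrix_apply]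
    set a := L.idx.symm i
    set k := L.idx.symm j
    by_cases h1 : (a.1 : ℕ) + 1 = (k.1 : ℕ)
    · by_cases h2 : k.2.1 = false
      · by_cases h3 : a.2.1 = false
        · by_cases h4 : a.2.2 = k.2.2
          · right; left; intro Ψ; simp [XL, h1, h2, h3, h4]
          · left; intro Ψ; simp [XL, h2, h3, h4]
        · by_cases h4 : 2 ≤ (k.1 : ℕ)
          · right; right
            exact ⟨k.1, a.2.2, k.2.2, h4, k.1.2, fun Ψ => by simp [XL, h1, h2, h3, h4]⟩
          · left; intro Ψ; simp [XL, h2, h3, h4]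
      · by_cases h3 : a.2.1 = false
        · left; intro Ψ; simp [XL, h2, h3]
        · by_cases h4 : 2 ≤ (k.1 : ℕ)
          · by_cases h5 : a.2.2 = k.2.2
            · right; left; intro Ψ; simp [XL, h1, h2, h3, h4, h5]
            · left; intro Ψ; simp [XL, h2, h3, h5]
          · left; intro Ψ; simp [XL, h2, h3, h4]
    · left; intro Ψ; simp [XL, h1]
  · have := (XL_nilpotent (M := M) Ψ).map (Matrix.reindexAlgEquiv ℂ ℂ L.idx)
    simpa [Matrix.reindexAlgEquiv_apply, Matrix.reindex_apply] using this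
  · intro i j hij
    show (XL M Ψ) (L.idx.symm i) (L.idx.symm j) = 0
    by_contra h
    have h1 := XL_ne_zero h
    have h2 : L.idx (L.idx.symm i) < L.idx (L.idx.symm j) := by
      apply L.i1
      show ((L.idx.symm i).1 : ℕ) < ((L.idx.symm j).1 : ℕ)
      omega
    rw [Equiv.apply_symm_apply, Equiv.apply_symm_apply] at h2
    exact absurd h2 (not_lt.2 hij)
  · -- `v` in the Springer fibre
    apply inSpringer_of_mul (det_perm_isUnit _)
      (Y := Matrix.of fun i j => XL M Ψ (sw M z0 zi (L.pos.symm i)) (sw M z0 zi (L.pos.symm j)))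
    · ext i k
      rw [Matrix.mul_apply, Matrix.mul_apply]
      simp only [perm, Matrix.of_apply, Matrix.submatrix_apply, mul_ite, mul_one, mul_zero,
        ite_mul, one_mul, zero_mul]
      rw [Finset.sum_ite_eq' Finset.univ (L.v k), if_pos (Finset.mem_univ _)]
      rw [Finset.sum_eq_single (L.v⁻¹ i)]
      · simp [Layout.v]
      · intro j _ hj
        rw [if_neg]
        rintro rfl
        exact hj (by simp)
      · simp
    · intro i j hij
      exact XL_pos_sw L hne Ψ hi _ _ (by simpa using hij)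
  · apply inSpringer_of_mul (det_perm_isUnit _)
      (Y := Matrix.of fun i j => XL M Ψ (L.pos.symm i) (L.pos.symm j))
    · ext i k
      rw [Matrix.mul_apply, Matrix.mul_apply]
      simp only [perm, Matrix.of_apply, Matrix.submatrix_apply, mul_ite, mul_one, mul_zero,
        ite_mul, one_mul, zero_mul]
      rw [Finset.sum_ite_eq' Finset.univ (L.w k), if_pos (Finset.mem_univ _)]
      rw [Finset.sum_eq_single (L.w⁻¹ i)]
      · simp [Layout.w]
      · intro j _ hj
        rw [if_neg]
        rintro rfl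
        exact hj (by simp)
      · simp
    · intro i j hij
      exact XL_pos L Ψ h0 _ _ (by simpa using hij)
  · -- analysis
    intro hcl
    have h0M : 0 < M := by omega
    let f0 : Fin M := ⟨0, h0M⟩
    obtain ⟨g, hg, hgne⟩ := exists_of_inClosure hcl (L.idx (f0, false, zi)) (L.pos (f0, false, z0))
      (by simp [Layout.v, sw])
    obtain ⟨U, Z, B, hU, hUd, hZ, hB, hXU, hgU⟩ := label_of_cell L hg
    obtain ⟨x, hx0, hx⟩ := gadget_analysis L Ψ hM U Z hU hUd hZ hXU
    have hU0 : U (f0, false, z0) (f0, false, z0) ≠ 0 := hUd _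
    have hUi : U (f0, false, zi) (f0, false, z0) ≠ 0 := by
      have h1 : (g.submatrix L.idx L.pos) (f0, false, zi) (f0, false, z0) ≠ 0 := hgne
      rw [hgU, Matrix.mul_apply, Finset.sum_eq_single (f0, false, z0)] at h1
      · exact left_ne_zero_of_mul h1
      · rintro ⟨t, b, q⟩ _ hl
        have : B (t, b, q) (f0, false, z0) = 0 := by
          apply hB
          by_cases hq : q = z0
          · subst hq
            by_cases ht : t = f0
            · subst ht
              cases b
              · exact absurd rfl hl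
              · exact L.p2' _
            · apply L.p2
              show 0 < (t : ℕ)
              rcases Nat.eq_zero_or_pos (t : ℕ) with h | h
              · exact absurd (Fin.ext h) ht
              · exact h
          · exact L.p1 _ _ _ _ _ hq
        rw [this, mul_zero]
      · simp
    set c0 := U (f0, false, z0) (f0, false, z0) with hc0
    refine ⟨fun q => c0⁻¹ * U (f0, false, q) (f0, false, z0), fun q => (x z0)⁻¹ * x q, ?_, ?_, ?_, ?_⟩
    · exact inv_mul_cancel₀ hU0
    · exact mul_ne_zero (inv_ne_zero hU0) hUi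
    · exact inv_mul_cancel₀ hx0
    · intro t h2 ht
      obtain ⟨c, hc⟩ := hx t h2 ht
      have h3 : Ψ t *ᵥ (fun q => c0⁻¹ * U (f0, false, q) (f0, false, z0)) = (c0⁻¹ * c) • x := by
        have : (fun q => c0⁻¹ * U (f0, false, q) (f0, false, z0))
            = c0⁻¹ • fun q => U (f0, false, q) (f0, false, z0) := rfl
        rw [this, Matrix.mulVec_smul]
        have h4 : Ψ t *ᵥ (fun q => U (f0, false, q) (f0, false, z0)) = c • x := hc
        rw [h4, smul_smul]
      rw [h3]
      funext q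
      simp only [Pi.smul_apply, smul_eq_mul]
      field_simp
  · -- curves
    intro h hcont hzero hone hnz hΨ
    apply inClosure_of_curve (fun s => (Gm M z0 zi (h s)).submatrix L.idx.symm L.pos.symm)
    · intro i j
      simp only [Matrix.submatrix_apply, Gm, blk, Gq]
      split_ifs
      · exact hcont _ _
      all_goals exact continuous_const
    · ext i k
      rw [perm_v_apply, Matrix.submatrix_apply]
      generalize L.idx.symm i = a
      generalize L.pos.symm k = k'
      obtain ⟨t, b, q⟩ := a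
      obtain ⟨t', b', q'⟩ := k'
      rw [sw_apply]
      simp only [Prod.mk.injEq]
      by_cases hb : t = t' ∧ b = b'
      · obtain ⟨rfl, rfl⟩ := hb
        by_cases hq : q' = z0
        · subst hq
          simp [Gm, blk, Gq, hzero, Pi.single_apply]
        · by_cases hqi : q' = zi
          · subst hqi
            simp [Gm, blk, Gq, hq]
          · simp [Gm, blk, Gq, hq, hqi, Equiv.swap_apply_of_ne_of_ne hq hqi]
      · have hb' : ¬ (t = t' ∧ b = b' ∧ q = Equiv.swap z0 zi q') := fun h => hb ⟨h.1, h.2.1⟩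
        rw [if_neg hb']
        simp [Gm, blk, hb]
    · intro s hs
      obtain ⟨Y, hY, hXG⟩ := exists_Y L hne Ψ (h s) (hone s) (hΨ s hs)
      refine cell_of_label L (U := blk M fun b => Uq z0 (h s b))
        (B := blk M fun b => Bq z0 zi (h s b)) ?_ ?_ ?_ ?_ ?_ hY hXG
      · rintro ⟨t, b, q⟩ ⟨t', b', q'⟩ hlt
        by_cases hb : t = t' ∧ b = b'
        · obtain ⟨rfl, rfl⟩ := hb
          by_cases hq : q' = z0
          · subst hq
            exact absurd (L.i3 t b q) (not_le.2 hlt)
          · have : ¬ (q = q') := by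
              rintro rfl; exact lt_irrefl _ hlt
            simp [blk, Uq, hq, this]
        · simp [blk, hb]
      · rintro ⟨t, b, q⟩
        by_cases hq : q = z0
        · subst hq
          simp [blk, Uq, hnz s b hs]
        · simp [blk, Uq, hq]
      · rintro ⟨t, b, q⟩ ⟨t', b', q'⟩ hlt
        by_cases hb : t = t' ∧ b = b'
        · obtain ⟨rfl, rfl⟩ := hb
          by_cases hq : q' = z0
          · subst hq
            have : ¬ (q = q') := by
              rintro rfl; exact lt_irrefl _ hlt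
            simp [blk, Bq, this]
          · by_cases hqi : q' = zi
            · subst hqi
              exfalso
              by_cases hq0 : q = z0
              · subst hq0
                exact absurd (L.p1 t b t b q' hq) (not_lt.2 hlt.le)
              · exact absurd (L.p4 t b q hq0) (not_le.2 hlt)
            · have : ¬ (q = q') := by
                rintro rfl; exact lt_irrefl _ hlt
              simp [blk, Bq, hq, hqi, this]
        · simp [blk, hb]
      · rintro ⟨t, b, q⟩
        by_cases hq : q = z0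
        · subst hq
          simp [blk, Bq, hnz s b hs]
        · by_cases hqi : q = zi
          · subst hqi
            simp [blk, Bq, hq, hone s b, hnz s b hs]
          · simp [blk, Bq, hq, hqi]
      · rw [blk_mul]
        unfold Gm
        congr 1
        funext b
        exact (Gq_eq hne (h s b) (hnz s b hs)).symm

end Pool.Agent.Lib_helper58.Spr
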