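import Mathlib
import Pool.Agent.Lib_helper58.Spr.Transport

/-!
# Encoding of systems of quadratic equations
-/

set_option autoImplicit false

open Matrix

namespace Pool.Agent.Lib_helper58.Spr

section

variable {A ρ κ : Type} [Fintype A] [DecidableEq A] [Fintype ρ] [Fintype κ]

/-- index set: `none` is `∞`, `some none` is `R`, `some (some a)` the variable `a` -/
abbrev IA (A : Type) : Type := Option (Option A)

/-- base variable -/
abbrev vI (a : A) : IA A := some (some a)

/-- labels of the equations -/
abbrev Eqn (A ρ κ : Type) : Type := IA A ⊕ (IA A ⊕ (Unit ⊕ (ρ ⊕ κ)))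

/-- linear functionals on `ℂ^{I × I}` -/
def Lf (o : A) (α β γ : ρ → A) (F : κ → A → ℂ) :
    (IA A ⊕ (Unit ⊕ (ρ ⊕ κ))) → (IA A × IA A) → ℂ
  | Sum.inl i => fun q => (if q = (i, vI o) then 1 else 0) - (if q = (vI o, i) then 1 else 0)
  | Sum.inr (Sum.inl _) => fun q =>
      (if q = (none, vI o) then 1 else 0) - (if q = (some none, some none) then 1 else 0)
  | Sum.inr (Sum.inr (Sum.inl r)) => fun q =>
      (if q = (vI o, vI (α r)) then 1 else 0) - (if q = (vI (β r), vI (γ r)) then 1 else 0)
  | Sum.inr (Sum.inr (Sum.inr l)) => fun q =>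
      if q.1 = some none then ∑ a, (if q.2 = vI a then F l a else 0) else 0

/-- the matrices `Ψ` -/
def PsiE (o : A) (α β γ : ρ → A) (F : κ → A → ℂ) : Eqn A ρ κ → Matrix (IA A × IA A) (IA A × IA A) ℂ
  | Sum.inl i => fun p q => if p.1 = p.2 ∧ q.1 = p.1 ∧ q.2 = i then 1 else 0
  | Sum.inr e => fun p q => if p = (none, none) then Lf o α β γ F e q else 0

lemma PsiE_inl_mulVec (o : A) (α β γ : ρ → A) (F : κ → A → ℂ) (i : IA A)
    (z : IA A × IA A → ℂ) (p : IA A × IA A) :
    (PsiE o α β γ F (Sum.inl i) *ᵥ z) p = if p.1 = p.2 then z (p.1, i) else 0 := by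
  unfold Matrix.mulVec dotProduct
  by_cases hp : p.1 = p.2
  · rw [if_pos hp, Finset.sum_eq_single (p.1, i)]
    · simp [PsiE, hp]
    · rintro ⟨a, b⟩ _ hab
      have : ¬ (p.1 = p.2 ∧ a = p.1 ∧ b = i) := by
        rintro ⟨-, h1, h2⟩; exact hab (by rw [h1, h2])
      simp only [PsiE, if_neg this, zero_mul]
    · simp
  · rw [if_neg hp]
    apply Finset.sum_eq_zero
    intro q _
    simp [PsiE, hp]

lemma PsiE_inr_mulVec (o : A) (α β γ : ρ → A) (F : κ → A → ℂ) (e : IA A ⊕ (Unit ⊕ (ρ ⊕ κ)))
    (z : IA A × IA A → ℂ) (p : IA A × IA A) :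
    (PsiE o α β γ F (Sum.inr e) *ᵥ z) p
      = if p = (none, none) then ∑ q, Lf o α β γ F e q * z q else 0 := by
  unfold Matrix.mulVec dotProduct
  by_cases hp : p = (none, none)
  · simp [PsiE, hp]
  · rw [if_neg hp]
    apply Finset.sum_eq_zero
    intro q _
    simp [PsiE, hp]

lemma sum_ind_sub (p q : IA A × IA A) (z : IA A × IA A → ℂ) :
    ∑ r, ((if r = p then (1 : ℂ) else 0) - (if r = q then 1 else 0)) * z r = z p - z q := by
  simp [sub_mul, Finset.sum_sub_distrib]

lemma sum_lin (l : A → ℂ) (z : IA A × IA A → ℂ) :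
    ∑ q : IA A × IA A, (if q.1 = some none then ∑ a, (if q.2 = vI a then l a else 0) else 0) * z q
      = ∑ a, l a * z (some none, vI a) := by
  rw [Fintype.sum_prod_type, Finset.sum_eq_single (some none)]
  · simp only [if_true, Finset.sum_mul]
    rw [Finset.sum_comm]
    refine Finset.sum_congr rfl fun a _ => ?_
    rw [Finset.sum_eq_single (vI a)]
    · simp
    · intro b _ hb
      rw [if_neg hb, zero_mul]
    · simp
  · intro b _ hb
    simp [hb]
  · simp

/-- the solutions of the system -/
def IsSol (o : A) (α β γ : ρ → A) (F : κ → A → ℂ) (y : A → ℂ) : Prop :=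
  y o = 1 ∧ (∀ r, y (α r) = y (β r) * y (γ r)) ∧ ∀ l, ∑ a, F l a * y a = 0

/-- size of the gadget -/
def size (a r l : ℕ) : ℕ := (2 * (a + 2) + r + l + 3) * (2 * (a + 2) ^ 2)

theorem quad (o : A) (α β γ : ρ → A)
    (hrel : ∀ r, α r = o ↔ (β r = o ∧ γ r = o)) {n : ℕ}
    (hn : n = size (Fintype.card A) (Fintype.card ρ) (Fintype.card κ)) :
    ∃ (Xf : (κ → A → ℂ) → Matrix (Fin n) (Fin n) ℂ) (v w : Equiv.Perm (Fin n)),
      (w⁻¹ * v) ^ 2 = 1 ∧
      (∀ i j, (∀ F, Xf F i j = 0) ∨ (∀ F, Xf F i j = 1) ∨ (∀ F, Xf F i j = -1) ∨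
        ∃ l a, ∀ F, Xf F i j = F l a) ∧
      ∀ F : κ → A → ℂ,
      IsNilpotent (Xf F) ∧ (∀ i j, j ≤ i → Xf F i j = 0) ∧
      InSpringer (Xf F) (perm v) ∧ InSpringer (Xf F) (perm w) ∧
      (InClosure (Xf F) v w ↔ ∃ y : A → ℂ, IsSol o α β γ F y) := by
  classical
  let z0 : IA A × IA A := (vI o, vI o)
  let zi : IA A × IA A := (none, none)
  have hne : z0 ≠ zi := by simp [z0, zi, vI]
  let T := Fintype.card (Eqn A ρ κ)
  let eqv : Eqn A ρ κ ≃ Fin T := Fintype.equivFin _
  let Ψ : (κ → A → ℂ) → ℕ → Matrix (IA A × IA A) (IA A × IA A) ℂ := fun F t =>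
    if h : t - 2 < T then PsiE o α β γ F (eqv.symm ⟨t - 2, h⟩) else 0
  let M := T + 2
  have hI : Fintype.card (IA A) = Fintype.card A + 2 := by
    simp [IA, Fintype.card_option]
  have hT : T = 2 * (Fintype.card A + 2) + Fintype.card ρ + Fintype.card κ + 1 := by
    show Fintype.card (Eqn A ρ κ) = _
    simp only [Eqn, Fintype.card_sum, Fintype.card_unit]
    rw [show Fintype.card (IA A) = Fintype.card A + 2 from hI]
    ring
  have hcard : Fintype.card (Lab M (IA A × IA A)) = n := by
    simp only [Lab, Fintype.card_prod, Fintype.card_fin, Fintype.card_bool]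
    rw [show Fintype.card (IA A) = Fintype.card A + 2 from hI, hn]
    show (T + 2) * (2 * ((Fintype.card A + 2) * (Fintype.card A + 2))) = _
    rw [hT]
    unfold size
    ring
  -- columns at `z0` and `zi`
  have hE0 : ∀ (F : κ → A → ℂ) (e : Eqn A ρ κ), ∀ q, q ≠ z0 → PsiE o α β γ F e q z0 = 0 := by
    rintro F (i | e) q hq
    · show (if q.1 = q.2 ∧ vI o = q.1 ∧ vI o = i then (1 : ℂ) else 0) = 0
      rw [if_neg]
      rintro ⟨h1, h2, -⟩
      exact hq (Prod.ext h2.symm (h1 ▸ h2.symm))
    · show (if q = (none, none) then Lf o α β γ F e z0 else 0) = 0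
      have : Lf o α β γ F e z0 = 0 := by
        rcases e with i | _ | r | l
        · show (if z0 = (i, vI o) then (1 : ℂ) else 0) - (if z0 = (vI o, i) then 1 else 0) = 0
          by_cases h : vI o = i
          · subst h; simp [z0]
          · simp [z0, h]
        · show (if z0 = (none, vI o) then (1 : ℂ) else 0)
            - (if z0 = (some none, some none) then 1 else 0) = 0
          simp [z0, vI]
        · show (if z0 = (vI o, vI (α r)) then (1 : ℂ) else 0)
            - (if z0 = (vI (β r), vI (γ r)) then 1 else 0) = 0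
          have h1 : (z0 = (vI o, vI (α r))) ↔ α r = o := by
            simp [z0, vI, eq_comm]
          have h2 : (z0 = (vI (β r), vI (γ r))) ↔ (β r = o ∧ γ r = o) := by
            simp [z0, vI, eq_comm]
          simp only [h1, h2, hrel r, sub_self]
        · have h1 : Lf o α β γ F (Sum.inr (Sum.inr (Sum.inr l))) z0
              = if z0.1 = some none then ∑ a, (if z0.2 = vI a then F l a else 0) else 0 := rfl
          rw [h1, if_neg]
          simp [z0, vI]
      rw [this, ite_self]
  have hEi : ∀ (F : κ → A → ℂ) (e : Eqn A ρ κ), ∀ q, q ≠ zi → PsiE o α β γ F e q zi = 0 := by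
    rintro F (i | e) q hq
    · show (if q.1 = q.2 ∧ none = q.1 ∧ none = i then (1 : ℂ) else 0) = 0
      rw [if_neg]
      rintro ⟨h1, h2, -⟩
      exact hq (Prod.ext h2.symm (h1 ▸ h2.symm))
    · show (if q = (none, none) then Lf o α β γ F e zi else 0) = 0
      exact if_neg hq
  have hΨ : ∀ t, 2 ≤ t → t < M → ∃ e, ∀ F, Ψ F t = PsiE o α β γ F e := by
    intro t h2 ht
    have : t - 2 < T := by simp only [M] at ht; omega
    exact ⟨eqv.symm ⟨t - 2, this⟩, fun F => dif_pos this⟩
  have hΨs : ∀ (F : κ → A → ℂ) e, ∃ t, 2 ≤ t ∧ t < M ∧ Ψ F t = PsiE o α β γ F e := by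
    intro F e
    refine ⟨(eqv e : ℕ) + 2, by omega, by simp only [M]; have := (eqv e).2; omega, ?_⟩
    have h1 : ((eqv e : ℕ) + 2) - 2 < T := by have := (eqv e).2; omega
    show (if h : ((eqv e : ℕ) + 2) - 2 < T then PsiE o α β γ F (eqv.symm ⟨_, h⟩) else 0) = _
    rw [dif_pos h1]
    congr 1
    have : (⟨((eqv e : ℕ) + 2) - 2, h1⟩ : Fin T) = eqv e := Fin.ext (by simp)
    rw [this, Equiv.symm_apply_apply]
  obtain ⟨Xg, v, w, hinv, hent, hmain⟩ := gadget (M := M) (n := n)
    (by simp only [M]; omega) hne hcard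
  refine ⟨fun F => Xg (Ψ F), v, w, hinv, ?_, fun F => ?_⟩
  · -- entries
    intro i j
    rcases hent i j with h | h | ⟨t, q, q', h2, ht, h⟩
    · exact Or.inl fun F => h _
    · exact Or.inr (Or.inl fun F => h _)
    · obtain ⟨e, he⟩ := hΨ t h2 ht
      have hX : ∀ F, Xg (Ψ F) i j = PsiE o α β γ F e q q' := fun F => by rw [h, he]
      simp only [hX]
      rcases e with i | e
      · by_cases h5 : q.1 = q.2 ∧ q'.1 = q.1 ∧ q'.2 = i
        · right; left; intro F; exact if_pos h5
        · left; intro F; exact if_neg h5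
      · by_cases hq : q = (none, none)
        · have h5 : ∀ F, PsiE o α β γ F (Sum.inr e) q q' = Lf o α β γ F e q' :=
            fun F => if_pos hq
          simp only [h5]
          have hind : ∀ (P R : Prop) [Decidable P] [Decidable R],
              (((if P then (1 : ℂ) else 0) - (if R then 1 else 0)) = 0 ∨
              ((if P then (1 : ℂ) else 0) - (if R then 1 else 0)) = 1 ∨
              ((if P then (1 : ℂ) else 0) - (if R then 1 else 0)) = -1) := by
            intro P R _ _
            split_ifs <;> simp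
          rcases e with i | _ | r | l
          · rcases hind (q' = (i, vI o)) (q' = (vI o, i)) with h6 | h6 | h6
            · exact Or.inl fun _ => h6
            · exact Or.inr (Or.inl fun _ => h6)
            · exact Or.inr (Or.inr (Or.inl fun _ => h6))
          · rcases hind (q' = (none, vI o)) (q' = (some none, some none)) with h6 | h6 | h6
            · exact Or.inl fun _ => h6
            · exact Or.inr (Or.inl fun _ => h6)
            · exact Or.inr (Or.inr (Or.inl fun _ => h6))
          · rcases hind (q' = (vI o, vI (α r))) (q' = (vI (β r), vI (γ r))) with h6 | h6 | h6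
            · exact Or.inl fun _ => h6
            · exact Or.inr (Or.inl fun _ => h6)
            · exact Or.inr (Or.inr (Or.inl fun _ => h6))
          · have h7 : ∀ F, Lf o α β γ F (Sum.inr (Sum.inr (Sum.inr l))) q'
                = if q'.1 = some none then ∑ a, (if q'.2 = vI a then F l a else 0) else 0 :=
              fun F => rfl
            simp only [h7]
            by_cases h8 : q'.1 = some none
            · simp only [if_pos h8]
              obtain ⟨q1, q2⟩ := q'
              rcases q2 with _ | _ | a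
              · left; intro F; simp [vI]
              · left; intro F; simp [vI]
              · right; right; right
                refine ⟨l, a, fun F => ?_⟩
                simp [vI]
            · left; intro F; exact if_neg h8
        · left; intro F; exact if_neg hq
  obtain ⟨hnil, hUT, hv, hw, hA, hB⟩ := hmain (Ψ F)
    (fun t h2 ht q hq => by obtain ⟨e, he⟩ := hΨ t h2 ht; rw [he]; exact hE0 F e q hq)
    (fun t h2 ht q hq => by obtain ⟨e, he⟩ := hΨ t h2 ht; rw [he]; exact hEi F e q hq)
  refine ⟨hnil, hUT, hv, hw, ⟨fun hcl => ?_, ?_⟩⟩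
  · -- from the closure to a solution
    obtain ⟨z, x, hz0, hzi, hx0, hzx⟩ := hA hcl
    have hE : ∀ e, PsiE o α β γ F e *ᵥ z = ((PsiE o α β γ F e *ᵥ z) z0) • x := by
      intro e
      obtain ⟨t, h2, ht, he⟩ := hΨs F e
      rw [← he]; exact hzx t h2 ht
    have hL : ∀ e, ∑ q, Lf o α β γ F e q * z q = 0 := by
      intro e
      have h1 := congrFun (hE (Sum.inr e)) zi
      rw [Pi.smul_apply, PsiE_inr_mulVec, PsiE_inr_mulVec, if_pos rfl, if_neg hne,
        smul_eq_mul, zero_mul] at h1
      exact h1
    let ξ : IA A → ℂ := fun j => x (j, j)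
    have hcol : ∀ i j, z (j, i) = z (vI o, i) * ξ j := by
      intro i j
      have h1 := congrFun (hE (Sum.inl i)) (j, j)
      rw [Pi.smul_apply, PsiE_inl_mulVec, PsiE_inl_mulVec, if_pos rfl, if_pos rfl,
        smul_eq_mul] at h1
      exact h1
    have hξ : ∀ j, z (j, vI o) = ξ j := by
      intro j
      rw [hcol, hz0, one_mul]
    have hsym : ∀ i, z (vI o, i) = ξ i := by
      intro i
      have h1 : ∑ q, ((if q = (i, vI o) then (1 : ℂ) else 0)
          - (if q = (vI o, i) then 1 else 0)) * z q = 0 := hL (Sum.inl i)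
      rw [sum_ind_sub] at h1
      rw [← hξ i]
      exact (sub_eq_zero.1 h1).symm
    have hzz : ∀ i j, z (j, i) = ξ i * ξ j := fun i j => by rw [hcol, hsym]
    have hξo : ξ (vI o) = 1 := hx0
    have hξi : ξ none ≠ 0 := by
      intro h
      apply hzi
      show z (none, none) = 0
      rw [hzz, h, mul_zero]
    have hsq : ξ none = ξ (some none) * ξ (some none) := by
      have h1 : ∑ q, ((if q = (none, vI o) then (1 : ℂ) else 0)
          - (if q = (some none, some none) then 1 else 0)) * z q = 0 :=
        hL (Sum.inr (Sum.inl ()))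
      rw [sum_ind_sub, hzz, hzz, hξo, one_mul] at h1
      exact sub_eq_zero.1 h1
    have hR : ξ (some none) ≠ 0 := by
      intro h
      apply hξi
      rw [hsq, h, mul_zero]
    refine ⟨fun a => ξ (vI a), hξo, fun r => ?_, fun l => ?_⟩
    · have h1 : ∑ q, ((if q = (vI o, vI (α r)) then (1 : ℂ) else 0)
          - (if q = (vI (β r), vI (γ r)) then 1 else 0)) * z q = 0 :=
        hL (Sum.inr (Sum.inr (Sum.inl r)))
      rw [sum_ind_sub, hzz, hzz, hξo, mul_one] at h1
      show ξ (vI (α r)) = ξ (vI (β r)) * ξ (vI (γ r))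
      rw [mul_comm (ξ (vI (β r)))]
      exact sub_eq_zero.1 h1
    · have h1 : ∑ q : IA A × IA A, (if q.1 = some none then
          ∑ a, (if q.2 = vI a then F l a else 0) else 0) * z q = 0 :=
        hL (Sum.inr (Sum.inr (Sum.inr l)))
      rw [sum_lin] at h1
      have h2 : ∑ a, F l a * z (some none, vI a) = ξ (some none) * ∑ a, F l a * ξ (vI a) := by
        rw [Finset.mul_sum]
        refine Finset.sum_congr rfl fun a _ => ?_
        rw [hzz]; ring
      rw [h2] at h1
      exact (mul_eq_zero.1 h1).resolve_left hR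
  · -- from a solution to the closure
    rintro ⟨y, hyo, hyr, hyl⟩
    let ξ : ℂ → IA A → ℂ := fun s i =>
      match i with
      | none => 1
      | some none => s
      | some (some a) => s ^ 2 * y a
    have hξc : ∀ i, Continuous fun s => ξ s i := by
      rintro (_ | _ | a)
      · exact continuous_const
      · exact continuous_id
      · exact (continuous_pow 2).mul continuous_const
    let h : ℂ → Bool → IA A × IA A → ℂ := fun s b q =>
      if b then (if q.1 = q.2 then ξ s q.1 else 0) else ξ s q.1 * ξ s q.2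
    apply hB h
    · rintro (_ | _) q
      · exact (hξc q.1).mul (hξc q.2)
      · show Continuous fun s => if q.1 = q.2 then ξ s q.1 else 0
        split_ifs
        · exact hξc _
        · exact continuous_const
    · rintro (_ | _)
      · funext ⟨i, j⟩
        rcases i with _ | _ | a <;> rcases j with _ | _ | b <;>
          simp [h, ξ, zi, Pi.single_apply]
      · funext ⟨i, j⟩
        rcases i with _ | _ | a <;> rcases j with _ | _ | b <;>
          simp [h, ξ, zi, Pi.single_apply]
    · rintro s (_ | _) <;> simp [h, ξ, zi]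
    · rintro s (_ | _) hs
      · simp [h, ξ, z0, vI, hyo, hs]
      · simp [h, ξ, z0, vI, hyo, hs]
    · intro s hs t h2 ht
      obtain ⟨e, he⟩ := hΨ t h2 ht
      rw [he]
      rcases e with i | e
      · refine ⟨ξ s i, ?_⟩
        funext p
        rw [PsiE_inl_mulVec, Pi.smul_apply, smul_eq_mul]
        show (if p.1 = p.2 then ξ s p.1 * ξ s i else 0)
          = ξ s i * (if p.1 = p.2 then ξ s p.1 else 0)
        split_ifs
        · ring
        · ring
      · refine ⟨0, ?_⟩
        have hz : ∑ q, Lf o α β γ F e q * h s false q = 0 := by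
          rcases e with i | _ | r | l
          · show ∑ q, ((if q = (i, vI o) then (1 : ℂ) else 0)
              - (if q = (vI o, i) then 1 else 0)) * h s false q = 0
            rw [sum_ind_sub]
            show ξ s i * ξ s (vI o) - ξ s (vI o) * ξ s i = 0
            ring
          · show ∑ q, ((if q = (none, vI o) then (1 : ℂ) else 0)
              - (if q = (some none, some none) then 1 else 0)) * h s false q = 0
            rw [sum_ind_sub]
            show 1 * (s ^ 2 * y o) - s * s = 0
            rw [hyo]; ring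
          · show ∑ q, ((if q = (vI o, vI (α r)) then (1 : ℂ) else 0)
              - (if q = (vI (β r), vI (γ r)) then 1 else 0)) * h s false q = 0
            rw [sum_ind_sub]
            show (s ^ 2 * y o) * (s ^ 2 * y (α r)) - (s ^ 2 * y (β r)) * (s ^ 2 * y (γ r)) = 0
            rw [hyo, hyr]; ring
          · show ∑ q : IA A × IA A, (if q.1 = some none then
              ∑ a, (if q.2 = vI a then F l a else 0) else 0) * h s false q = 0
            rw [sum_lin]
            have h3 : ∑ a, F l a * h s false (some none, vI a) = s ^ 3 * ∑ a, F l a * y a := by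
              rw [Finset.mul_sum]
              refine Finset.sum_congr rfl fun a _ => ?_
              show F l a * (s * (s ^ 2 * y a)) = _
              ring
            rw [h3, hyl, mul_zero]
        funext p
        rw [PsiE_inr_mulVec, hz]
        simp

end

end Pool.Agent.Lib_helper58.Spr
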