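import Mathlib
import Pool.Agent.Lib_helper58.Spr.Quad

/-!
# A line of matrices along which the answer changes at `2^k` points
-/

set_option autoImplicit false

open Matrix

namespace Pool.Agent.Lib_helper58.Spr

/-- variables: `none` is `1`, `some i` is `c^(2^i)` -/
abbrev Wk (k : ℕ) : Type := Option (Fin (k + 1))

open Polynomial in
/-- the two linear equations, with coefficients in `ℚ[c]` -/
noncomputable def Fp (k : ℕ) : Bool → Wk k → Polynomial ℚ
  | false => fun a => if a = some 0 then 1 else if a = none then -X else 0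
  | true => fun a => if a = some (Fin.last k) then 1 else if a = none then -2 else 0

lemma Fp_deg (k : ℕ) (l : Bool) (a : Wk k) : (Fp k l a).natDegree ≤ 1 := by
  cases l
  · simp only [Fp]
    split_ifs <;> simp
  · simp only [Fp]
    split_ifs
    · simp
    · rw [Polynomial.natDegree_neg]
      exact le_trans (Polynomial.natDegree_ofNat 2).le (by norm_num)
    · simp

lemma pow_iff (k : ℕ) (c : ℂ) :
    (∃ y : Wk k → ℂ, IsSol (ρ := Fin k) none (fun r => some r.succ) (fun r => some r.castSucc)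
      (fun r => some r.castSucc) (fun l a => Polynomial.aeval c (Fp k l a)) y) ↔
      c ^ (2 ^ k) = 2 := by
  have e1 : ∀ y : Wk k → ℂ, ∑ a, Polynomial.aeval c (Fp k false a) * y a
      = y (some 0) - c * y none := by
    intro y
    rw [Fintype.sum_option, Finset.sum_eq_single 0]
    · simp [Fp]; ring
    · intro b _ hb
      simp [Fp, hb]
    · simp
  have e2 : ∀ y : Wk k → ℂ, ∑ a, Polynomial.aeval c (Fp k true a) * y a
      = y (some (Fin.last k)) - 2 * y none := by
    intro y
    have e3 : Polynomial.aeval c (2 : Polynomial ℚ) = 2 := map_ofNat _ 2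
    rw [Fintype.sum_option, Finset.sum_eq_single (Fin.last k)]
    · simp [Fp, e3]; ring
    · intro b _ hb
      simp [Fp, hb]
    · simp
  constructor
  · rintro ⟨y, hy0, hyr, hyl⟩
    have h1 := hyl false
    have h2 := hyl true
    rw [e1, hy0] at h1
    rw [e2, hy0] at h2
    have key : ∀ i : Fin (k + 1), y (some i) = c ^ (2 ^ (i : ℕ)) := by
      intro i
      induction i using Fin.induction with
      | zero => simp; linear_combination h1
      | succ i ih =>
        rw [hyr i, ih]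
        simp only [Fin.val_castSucc, Fin.val_succ]
        rw [← pow_add, pow_succ 2 (i : ℕ)]
        congr 1
        ring
    have h3 := key (Fin.last k)
    simp only [Fin.val_last] at h3
    rw [← h3]
    linear_combination h2
  · intro hc
    refine ⟨fun a => match a with
      | none => 1
      | some i => c ^ (2 ^ (i : ℕ)), rfl, ?_, ?_⟩
    · intro r
      simp only [Fin.val_castSucc, Fin.val_succ]
      rw [← pow_add, pow_succ 2 (r : ℕ)]
      congr 1
      ring
    · rintro (_ | _)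
      · rw [e1]; simp
      · rw [e2]; simp [hc]

lemma size_k (k : ℕ) : size (k + 2) k 2 ≤ 6 * (k + 5) ^ 3 := by
  unfold size
  calc (2 * (k + 2 + 2) + k + 2 + 3) * (2 * (k + 2 + 2) ^ 2)
      ≤ (3 * (k + 5)) * (2 * (k + 5) ^ 2) := by
        apply Nat.mul_le_mul
        · omega
        · apply Nat.mul_le_mul_left
          apply Nat.pow_le_pow_left
          omega
    _ = 6 * (k + 5) ^ 3 := by ring

/-- a line of matrices -/
theorem line (k : ℕ) : ∃ (n : ℕ) (Xp : Matrix (Fin n) (Fin n) (Polynomial ℚ))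
    (v w : Equiv.Perm (Fin n)), n ≤ 6 * (k + 5) ^ 3 ∧ (w⁻¹ * v) ^ 2 = 1 ∧
    (∀ i j, (Xp i j).natDegree ≤ 1) ∧
    ∀ c : ℂ, IsNilpotent (Xp.map (Polynomial.aeval c)) ∧
      (∀ i j, j ≤ i → (Xp.map (Polynomial.aeval c)) i j = 0) ∧
      InSpringer (Xp.map (Polynomial.aeval c)) (perm v) ∧
      InSpringer (Xp.map (Polynomial.aeval c)) (perm w) ∧
      (InClosure (Xp.map (Polynomial.aeval c)) v w ↔ c ^ (2 ^ k) = 2) := by
  classical
  obtain ⟨Xf, v, w, h1, h2, h3⟩ := quad (A := Wk k) (ρ := Fin k) (κ := Bool) none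
    (fun r => some r.succ) (fun r => some r.castSucc) (fun r => some r.castSucc)
    (by intro r; simp) rfl
  let n := size (Fintype.card (Wk k)) (Fintype.card (Fin k)) (Fintype.card Bool)
  have hX : ∀ i j, ∃ p : Polynomial ℚ, p.natDegree ≤ 1 ∧
      ∀ c : ℂ, Xf (fun l a => Polynomial.aeval c (Fp k l a)) i j = Polynomial.aeval c p := by
    intro i j
    rcases h2 i j with h | h | h | ⟨l, a, h⟩
    · exact ⟨0, by simp, fun c => by rw [h]; simp⟩
    · exact ⟨1, by simp, fun c => by rw [h]; simp⟩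
    · exact ⟨-1, by simp, fun c => by rw [h]; simp⟩
    · exact ⟨Fp k l a, Fp_deg k l a, fun c => by rw [h]⟩
  choose Xp hd hXp using hX
  have heq : ∀ c : ℂ, (Matrix.of Xp).map (Polynomial.aeval c)
      = Xf (fun l a => Polynomial.aeval c (Fp k l a)) := by
    intro c
    ext i j
    rw [Matrix.map_apply, Matrix.of_apply, hXp]
  refine ⟨n, Matrix.of Xp, v, w, ?_, h1, hd, ?_⟩
  · refine le_trans (le_of_eq ?_) (size_k k)
    simp [n, Wk, Fintype.card_option]
  · intro c
    rw [heq]
    obtain ⟨h4, h5, h6, h7, h8⟩ := h3 fun l a => Polynomial.aeval c (Fp k l a)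
    exact ⟨h4, h5, h6, h7, h8.trans (pow_iff k c)⟩

section Irr

open Polynomial

lemma irr_int (k : ℕ) : Irreducible (X ^ (2 ^ k) - C 2 : Polynomial ℤ) := by
  have hpos : 0 < 2 ^ k := by positivity
  have hmon : (X ^ (2 ^ k) - C 2 : Polynomial ℤ).Monic := monic_X_pow_sub_C _ hpos.ne'
  have hdeg : (X ^ (2 ^ k) - C 2 : Polynomial ℤ).degree = (2 ^ k : ℕ) := degree_X_pow_sub_C hpos _
  have hprime : (Ideal.span {(2 : ℤ)}).IsPrime := by
    rw [Ideal.span_singleton_prime (by norm_num)]
    exact Int.prime_two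
  apply irreducible_of_eisenstein_criterion hprime
  · rw [hmon.leadingCoeff, Ideal.mem_span_singleton]
    norm_num
  · intro m hm
    rw [hdeg, Nat.cast_lt] at hm
    rw [coeff_sub, coeff_X_pow, if_neg hm.ne, coeff_C, zero_sub, Ideal.mem_span_singleton]
    split_ifs
    · norm_num
    · simp
  · rw [hdeg]; exact_mod_cast hpos
  · rw [coeff_sub, coeff_X_pow, if_neg hpos.ne, coeff_C_zero, zero_sub, Ideal.span_singleton_pow,
      Ideal.mem_span_singleton]
    norm_num
  · exact hmon.isPrimitive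

lemma irr_rat (k : ℕ) : Irreducible (X ^ (2 ^ k) - C 2 : Polynomial ℚ) := by
  have hpos : 0 < 2 ^ k := by positivity
  have hmon : (X ^ (2 ^ k) - C 2 : Polynomial ℤ).Monic := monic_X_pow_sub_C _ hpos.ne'
  have := (IsPrimitive.Int.irreducible_iff_irreducible_map_cast hmon.isPrimitive).1 (irr_int k)
  have h2 : (X ^ (2 ^ k) - C 2 : Polynomial ℤ).map (Int.castRingHom ℚ)
      = (X ^ (2 ^ k) - C 2 : Polynomial ℚ) := by
    rw [Polynomial.map_sub, Polynomial.map_pow, map_X, map_C]
    congr 2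
  rwa [h2] at this

lemma eq_zero_of_small {k : ℕ} {c : ℂ} (hc : c ^ (2 ^ k) = 2) {Q : Polynomial ℚ}
    (hQ : Q.natDegree < 2 ^ k) (h : aeval c Q = 0) : Q = 0 := by
  have hpos : 0 < 2 ^ k := by positivity
  have hmin : (X ^ (2 ^ k) - C 2 : Polynomial ℚ) = minpoly ℚ c :=
    minpoly.eq_of_irreducible_of_monic (irr_rat k) (by simp [hc]) (monic_X_pow_sub_C _ hpos.ne')
  have hdvd : minpoly ℚ c ∣ Q := minpoly.dvd ℚ c h
  rw [← hmin] at hdvd
  apply eq_zero_of_dvd_of_natDegree_lt hdvd
  rwa [natDegree_X_pow_sub_C]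

end Irr

lemma exists_tr : ∃ c : ℂ, Transcendental ℚ c := by
  by_contra hcon
  push Not at hcon
  have h1 : {x : ℂ | IsAlgebraic ℚ x} = Set.univ := by
    ext x
    simp only [Set.mem_ofPred_eq, Set.mem_univ, iff_true]
    exact Classical.not_not.1 (hcon x)
  have h2 := Algebraic.countable ℚ ℂ
  rw [h1] at h2
  exact not_countable_complex h2

lemma aeval_line {n : ℕ} (Xp : Matrix (Fin n) (Fin n) (Polynomial ℚ))
    (P : MvPolynomial (Fin n × Fin n) ℚ) (c : ℂ) :
    MvPolynomial.aeval (fun p : Fin n × Fin n => (Xp.map (Polynomial.aeval c)) p.1 p.2) P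
      = Polynomial.aeval c (MvPolynomial.aeval (fun p : Fin n × Fin n => Xp p.1 p.2) P) := by
  have := MvPolynomial.comp_aeval (fun p : Fin n × Fin n => Xp p.1 p.2)
    (Polynomial.aeval (R := ℚ) c)
  exact (congrArg (fun φ => φ P) this).symm

lemma eval_line {n : ℕ} (Xp : Matrix (Fin n) (Fin n) (Polynomial ℚ))
    (P : MvPolynomial (Fin n × Fin n) ℂ) (c : ℂ) :
    MvPolynomial.eval (fun p : Fin n × Fin n => (Xp.map (Polynomial.aeval c)) p.1 p.2) P
      = Polynomial.eval c (MvPolynomial.aeval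
          (fun p : Fin n × Fin n => (Xp p.1 p.2).map (algebraMap ℚ ℂ)) P) := by
  have := MvPolynomial.comp_aeval (fun p : Fin n × Fin n => (Xp p.1 p.2).map (algebraMap ℚ ℂ))
    (Polynomial.aeval (R := ℂ) c)
  have h2 := (congrArg (fun φ => φ P) this).symm
  simp only [AlgHom.comp_apply] at h2
  rw [Polynomial.coe_aeval_eq_eval, MvPolynomial.aeval_eq_eval] at h2
  rw [← h2]
  congr 1
  congr 1
  funext p
  rw [Matrix.map_apply, Polynomial.eval_map_algebraMap]

/-- the degree lower bounds -/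
theorem degree (k : ℕ) : ∃ (n : ℕ) (v w : Equiv.Perm (Fin n)),
    n ≤ 6 * (k + 5) ^ 3 ∧ (w⁻¹ * v) ^ 2 = 1 ∧
    (∃ X X' : Matrix (Fin n) (Fin n) ℂ,
      IsNilpotent X ∧ IsNilpotent X' ∧ (∀ i j, j ≤ i → X i j = 0 ∧ X' i j = 0) ∧
      InSpringer X (perm v) ∧ InSpringer X (perm w) ∧
      InSpringer X' (perm v) ∧ InSpringer X' (perm w) ∧
      InClosure X v w ∧ ¬ InClosure X' v w ∧
      ∀ P : MvPolynomial (Fin n × Fin n) ℚ, P.totalDegree < 2 ^ k →
        (MvPolynomial.aeval (fun p => X p.1 p.2) P = 0 ↔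
          MvPolynomial.aeval (fun p => X' p.1 p.2) P = 0)) ∧
    (∀ (N D : ℕ) (P : Fin N → MvPolynomial (Fin n × Fin n) ℂ), (∀ l, (P l).totalDegree ≤ D) →
      (∀ X X' : Matrix (Fin n) (Fin n) ℂ,
        (∀ i j, j ≤ i → X i j = 0 ∧ X' i j = 0) →
        InSpringer X (perm v) → InSpringer X (perm w) →
        InSpringer X' (perm v) → InSpringer X' (perm w) →
        (∀ l, MvPolynomial.eval (fun p => X p.1 p.2) (P l) = 0 ↔
          MvPolynomial.eval (fun p => X' p.1 p.2) (P l) = 0) →
        (InClosure X v w ↔ InClosure X' v w)) →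
      2 ^ k ≤ N * D) := by
  classical
  obtain ⟨n, Xp, v, w, hn, h1, h2, h3⟩ := line k
  have hpos : 0 < 2 ^ k := by positivity
  refine ⟨n, v, w, hn, h1, ?_, ?_⟩
  · obtain ⟨c, hc⟩ := IsAlgClosed.exists_pow_nat_eq (2 : ℂ) hpos
    obtain ⟨t, ht⟩ := exists_tr
    have htne : t ^ (2 ^ k) ≠ 2 := by
      intro h
      apply ht
      refine ⟨Polynomial.X ^ (2 ^ k) - Polynomial.C 2, ?_, ?_⟩
      · exact (Polynomial.monic_X_pow_sub_C _ hpos.ne').ne_zero
      · simp [h]
    obtain ⟨a1, a2, a3, a4, a5⟩ := h3 c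
    obtain ⟨b1, b2, b3, b4, b5⟩ := h3 t
    refine ⟨_, _, a1, b1, fun i j hij => ⟨a2 i j hij, b2 i j hij⟩, a3, a4, b3, b4, a5.2 hc,
      fun h => htne (b5.1 h), ?_⟩
    intro P hP
    rw [aeval_line, aeval_line]
    have hdeg : (MvPolynomial.aeval (fun p : Fin n × Fin n => Xp p.1 p.2) P).natDegree
        < 2 ^ k := by
      refine lt_of_le_of_lt (MvPolynomial.aeval_natDegree_le (m := P.totalDegree) (n := 1) P le_rfl
        _ fun p => h2 p.1 p.2) ?_
      rwa [mul_one]
    constructor
    · intro h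
      rw [eq_zero_of_small hc hdeg h]
      simp
    · intro h
      have h0 : MvPolynomial.aeval (fun p : Fin n × Fin n => Xp p.1 p.2) P = 0 := by
        by_contra hne
        exact ht ⟨_, hne, h⟩
      rw [h0]
      simp
  · intro N D P hPD hcrit
    by_contra hlt
    push Not at hlt
    let q : Fin N → Polynomial ℂ := fun l =>
      MvPolynomial.aeval (fun p : Fin n × Fin n => (Xp p.1 p.2).map (algebraMap ℚ ℂ)) (P l)
    have hq : ∀ l, (q l).natDegree ≤ D := by
      intro l
      refine le_trans (MvPolynomial.aeval_natDegree_le (m := D) (n := 1) (P l) (hPD l)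
        _ fun p => ?_) (by rw [mul_one])
      exact le_trans Polynomial.natDegree_map_le (h2 p.1 p.2)
    let R : Finset ℂ := Finset.univ.biUnion fun l => (q l).roots.toFinset
    have hR : R.card ≤ N * D := by
      calc R.card ≤ ∑ l : Fin N, (q l).roots.toFinset.card := Finset.card_biUnion_le
        _ ≤ ∑ _l : Fin N, D := Finset.sum_le_sum fun l _ =>
            (Multiset.toFinset_card_le _).trans ((Polynomial.card_roots' _).trans (hq l))
        _ = N * D := by simp
    -- a root of `c^(2^k) = 2` outside `R`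
    have hprim : IsPrimitiveRoot (Complex.exp (2 * Real.pi * Complex.I / (2 ^ k : ℕ))) (2 ^ k) :=
      Complex.isPrimitiveRoot_exp _ hpos.ne'
    have hcard : (Polynomial.nthRoots (2 ^ k) (2 : ℂ)).toFinset.card = 2 ^ k := by
      rw [Multiset.toFinset_card_of_nodup (hprim.nthRoots_nodup two_ne_zero),
        hprim.card_nthRoots, if_pos (IsAlgClosed.exists_pow_nat_eq (2 : ℂ) hpos)]
    obtain ⟨c, hc1, hc2⟩ : ∃ c ∈ (Polynomial.nthRoots (2 ^ k) (2 : ℂ)).toFinset, c ∉ R := by
      by_contra hcon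
      push Not at hcon
      have := Finset.card_le_card (show (Polynomial.nthRoots (2 ^ k) (2 : ℂ)).toFinset ⊆ R from
        fun c hc => hcon c hc)
      omega
    rw [Multiset.mem_toFinset, Polynomial.mem_nthRoots hpos] at hc1
    obtain ⟨t, ht⟩ : ∃ t : ℂ, t ∉ R ∪ (Polynomial.nthRoots (2 ^ k) (2 : ℂ)).toFinset :=
      Infinite.exists_notMem_finset _
    rw [Finset.notMem_union] at ht
    obtain ⟨ht1, ht2⟩ := ht
    rw [Multiset.mem_toFinset, Polynomial.mem_nthRoots hpos] at ht2
    have hgen : ∀ z : ℂ, z ∉ R → ∀ l, Polynomial.eval z (q l) = 0 ↔ q l = 0 := by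
      intro z hz l
      constructor
      · intro h
        by_contra hne
        apply hz
        simp only [R, Finset.mem_biUnion, Finset.mem_univ, true_and, Multiset.mem_toFinset]
        exact ⟨l, (Polynomial.mem_roots hne).2 h⟩
      · intro h
        rw [h]; simp
    obtain ⟨a1, a2, a3, a4, a5⟩ := h3 c
    obtain ⟨b1, b2, b3, b4, b5⟩ := h3 t
    have := hcrit _ _ (fun i j hij => ⟨a2 i j hij, b2 i j hij⟩) a3 a4 b3 b4 (by
      intro l
      rw [eval_line, eval_line]
      exact (hgen c hc2 l).trans (hgen t ht1 l).symm)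
    exact ht2 (b5.1 (this.1 (a5.2 hc1)))

end Pool.Agent.Lib_helper58.Spr
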