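import Mathlib
import Pool.Agent.Lib_helper58.Spr.Defs

/-!
# Fixed points differing by a reflection
-/

set_option autoImplicit false

open Matrix

namespace Pool.Agent.Lib_helper58.Spr

variable {n : ℕ}

lemma mul_perm (A : Matrix (Fin n) (Fin n) ℂ) (w : Equiv.Perm (Fin n)) (x k : Fin n) :
    (A * perm w) x k = A x (w k) := by
  rw [Matrix.mul_apply]
  simp [perm]

lemma ut_det {b : Matrix (Fin n) (Fin n) ℂ} (h : UT b) (hd : ∀ i, b i i ≠ 0) :
    IsUnit b.det := by
  have : b.det = ∏ i, b i i := Matrix.det_of_isUpperTriangular h.blockTriangular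
  rw [this, isUnit_iff_ne_zero]
  exact Finset.prod_ne_zero_iff.2 fun i _ => hd i

lemma ut_mul_diag {A B : Matrix (Fin n) (Fin n) ℂ} (hA : UT A) (hB : UT B) (i : Fin n) :
    (A * B) i i = A i i * B i i := by
  rw [Matrix.mul_apply, Finset.sum_eq_single i]
  · intro k _ hk
    rcases lt_or_gt_of_ne hk with h | h
    · rw [hA i k h, zero_mul]
    · rw [hB k i h, mul_zero]
  · simp

lemma ut_pow {A : Matrix (Fin n) (Fin n) ℂ} (hA : UT A) (m : ℕ) : UT (A ^ m) := by
  induction m with
  | zero =>
    intro i j hij
    rw [pow_zero, Matrix.one_apply_ne (ne_of_gt hij)]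
  | succ m ih =>
    rw [pow_succ]
    intro i j hij
    exact (ih.blockTriangular.mul hA.blockTriangular) hij

lemma ut_pow_diag {A : Matrix (Fin n) (Fin n) ℂ} (hA : UT A) (m : ℕ) (i : Fin n) :
    (A ^ m) i i = (A i i) ^ m := by
  induction m with
  | zero => simp
  | succ m ih => rw [pow_succ, ut_mul_diag (ut_pow hA m) hA, ih, pow_succ]

lemma diag_zero {X g : Matrix (Fin n) (Fin n) ℂ} (hX : IsNilpotent X) (hg : IsUnit g.det)
    (h : InSpringer X g) (i : Fin n) : (g⁻¹ * X * g) i i = 0 := by
  obtain ⟨m, hm⟩ := hX
  have hpow : ∀ k : ℕ, (g⁻¹ * X * g) ^ k = g⁻¹ * X ^ k * g := by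
    intro k
    induction k with
    | zero => rw [pow_zero, pow_zero, Matrix.mul_one, Matrix.nonsing_inv_mul _ hg]
    | succ k ih =>
      rw [pow_succ, ih, pow_succ]
      calc g⁻¹ * X ^ k * g * (g⁻¹ * X * g) = g⁻¹ * X ^ k * (g * g⁻¹) * X * g := by
            simp only [Matrix.mul_assoc]
        _ = g⁻¹ * (X ^ k * X) * g := by
            rw [Matrix.mul_nonsing_inv _ hg, Matrix.mul_one]; simp only [Matrix.mul_assoc]
  have h1 := ut_pow_diag h m i
  rw [hpow m, hm, Matrix.mul_zero, Matrix.zero_mul, Matrix.zero_apply] at h1
  rcases Nat.eq_zero_or_pos m with h0 | h0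
  · subst h0; rw [pow_zero] at h1; exact absurd h1.symm one_ne_zero
  · exact (pow_eq_zero_iff h0.ne').1 h1.symm

/-- If `w = v (a b)` with `a < b`, `v a < v b` (so `v < w` and `v⁻¹ w` is a reflection) and both
`vB`, `wB` are in `S_X`, then `vB` is in the closure of `C_w ∩ S_X`. -/
theorem reflection (X : Matrix (Fin n) (Fin n) ℂ) (hX : IsNilpotent X)
    (v w : Equiv.Perm (Fin n)) (a b : Fin n) (hab : a < b) (hvab : v a < v b)
    (hw : w = v * Equiv.swap a b) (hv : InSpringer X (perm v)) (hwS : InSpringer X (perm w)) :
    InClosure X v w := by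
  have hdv := det_perm_isUnit v
  have hdw := det_perm_isUnit w
  set Y := (perm v)⁻¹ * X * perm v with hY
  set Yw := (perm w)⁻¹ * X * perm w with hYw
  have hXv : X * perm v = perm v * Y := by
    rw [hY, ← Matrix.mul_assoc, ← Matrix.mul_assoc, Matrix.mul_nonsing_inv _ hdv, Matrix.one_mul]
  have hXw : X * perm w = perm w * Yw := by
    rw [hYw, ← Matrix.mul_assoc, ← Matrix.mul_assoc, Matrix.mul_nonsing_inv _ hdw, Matrix.one_mul]
  -- entries of `perm v * Y`
  have hpm : ∀ (u : Equiv.Perm (Fin n)) (Z : Matrix (Fin n) (Fin n) ℂ) x k,
      (perm u * Z) (u x) k = Z x k := by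
    intro u Z x k
    rw [Matrix.mul_apply, Finset.sum_eq_single x]
    · simp [perm]
    · intro l _ hl
      have : ¬ (u x = u l) := fun h => hl (u.injective h).symm
      simp [perm, this]
    · simp
  have hYX : ∀ x k, Y x k = X (v x) (v k) := by
    intro x k
    rw [← hpm v Y x k, ← hXv, mul_perm]
  have hYwX : ∀ x k, Yw x k = X (w x) (w k) := by
    intro x k
    rw [← hpm w Yw x k, ← hXw, mul_perm]
  have hwa : w a = v b := by rw [hw]; simp
  have hwb : w b = v a := by rw [hw]; simp
  have hwo : ∀ k, k ≠ a → k ≠ b → w k = v k := by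
    intro k h1 h2
    rw [hw]; simp [Equiv.swap_apply_of_ne_of_ne h1 h2]
  have hYUT : UT Y := hv
  have hYwUT : UT Yw := hwS
  have hYab : Y a b = 0 := by
    rw [hYX, ← hwb, ← hwa, ← hYwX]; exact hYwUT _ _ hab
  have hYib : ∀ i, i ≠ a → i ≠ b → a < i → Y i b = 0 := by
    intro i h1 h2 h3
    rw [hYX, ← hwo i h1 h2, ← hwa, ← hYwX]; exact hYwUT _ _ h3
  have hYak : ∀ k, k ≠ a → k ≠ b → k < b → Y a k = 0 := by
    intro k h1 h2 h3
    rw [hYX, ← hwo k h1 h2, ← hwb, ← hYwX]; exact hYwUT _ _ h3
  have hYd : ∀ i, Y i i = 0 := fun i => diag_zero hX hdv hv i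
  have hba : b ≠ a := ne_of_gt hab
  -- the curve
  let Nm : ℂ → Matrix (Fin n) (Fin n) ℂ := fun s => 1 + Matrix.single b a s
  have hsq : ∀ s t : ℂ, (Matrix.single b a s : Matrix (Fin n) (Fin n) ℂ) * Matrix.single b a t = 0 :=
    fun s t => by rw [Matrix.single_mul_single_of_ne _ _ _ _ hba.symm]
  have hNN : ∀ s, Nm s * (1 - Matrix.single b a s) = 1 := by
    intro s
    show (1 + Matrix.single b a s) * (1 - Matrix.single b a s) = 1
    rw [add_mul, mul_sub, mul_sub, hsq]; simp
  apply inClosure_of_curve (fun s => perm v * Nm s)
  · intro i j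
    simp only [Matrix.mul_apply]
    apply continuous_finsetSum
    intro k _
    apply Continuous.mul continuous_const
    show Continuous fun s => (1 : Matrix (Fin n) (Fin n) ℂ) k j + Matrix.single b a s k j
    apply Continuous.add continuous_const
    by_cases h : b = k ∧ a = j
    · obtain ⟨rfl, rfl⟩ := h
      simp only [Matrix.single_apply_same]
      exact continuous_id
    · simp only [Matrix.single_apply_of_ne _ _ _ _ _ h]
      exact continuous_const
  · show perm v * (1 + Matrix.single b a (0 : ℂ)) = perm v
    simp
  · intro s hs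
    -- right factor
    let Bm : Matrix (Fin n) (Fin n) ℂ := fun l k =>
      if k = a then (if l = a then s else 0)
      else if k = b then (if l = a then 1 else if l = b then -s⁻¹ else 0)
      else if l = k then 1 else 0
    let Um : Matrix (Fin n) (Fin n) ℂ := 1 + Matrix.single (v a) (v b) s⁻¹
    have hUm : Borel Um := by
      have h1 : UT Um := by
        intro i j hij
        show (1 : Matrix (Fin n) (Fin n) ℂ) i j + Matrix.single (v a) (v b) s⁻¹ i j = 0
        rw [Matrix.one_apply_ne (ne_of_gt hij), Matrix.single_apply_of_ne, add_zero]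
        rintro ⟨rfl, rfl⟩
        exact absurd hvab (not_lt.2 hij.le)
      refine ⟨h1, ut_det h1 fun i => ?_⟩
      show (1 : Matrix (Fin n) (Fin n) ℂ) i i + Matrix.single (v a) (v b) s⁻¹ i i ≠ 0
      rw [Matrix.one_apply_eq, Matrix.single_apply_of_ne, add_zero]
      · exact one_ne_zero
      · rintro ⟨h2, h3⟩
        exact (ne_of_lt hvab) (h2.trans h3.symm)
    have hBm : Borel Bm := by
      have h1 : UT Bm := by
        intro l k hkl
        simp only [Bm]
        by_cases hk : k = a
        · have : l ≠ a := by rintro rfl; exact absurd hk (ne_of_lt hkl)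
          simp [hk, this]
        · by_cases hkb : k = b
          · have h2 : l ≠ a := by rintro rfl; rw [hkb] at hkl; exact absurd hkl (not_lt.2 hab.le)
            have h3 : l ≠ b := by rintro rfl; rw [hkb] at hkl; exact lt_irrefl _ hkl
            simp [hkb, hba, h2, h3]
          · have : l ≠ k := ne_of_gt hkl
            simp [hk, hkb, this]
      refine ⟨h1, ut_det h1 fun i => ?_⟩
      simp only [Bm]
      by_cases hk : i = a
      · simp [hk, hs]
      · by_cases hkb : i = b
        · simp [hkb, hba, hs]
        · simp [hk, hkb]
    have hfac : perm v * Nm s = Um * perm w * Bm := by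
      ext x k
      have hL : (perm v * Nm s) x k = perm v x k + (if k = a then s * perm v x b else 0) := by
        show (perm v * (1 + Matrix.single b a s)) x k = _
        rw [mul_add, Matrix.mul_one, Matrix.add_apply]
        congr 1
        rw [Matrix.mul_apply, Finset.sum_eq_single b]
        · by_cases hk : k = a
          · subst hk; simp [mul_comm]
          · rw [Matrix.single_apply_of_ne _ _ _ _ _ (fun h => hk h.2.symm)]; simp [hk]
        · intro l _ hl
          rw [Matrix.single_apply_of_ne _ _ _ _ _ (fun h => hl h.1.symm), mul_zero]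
        · simp
      have hR : ∀ l, (Um * perm w) x l = (if x = w l then 1 else 0)
          + (if x = v a ∧ w l = v b then s⁻¹ else 0) := by
        intro l
        rw [mul_perm]
        show (1 : Matrix (Fin n) (Fin n) ℂ) x (w l) + Matrix.single (v a) (v b) s⁻¹ x (w l) = _
        rw [Matrix.one_apply]
        congr 1
        by_cases h : v a = x ∧ v b = w l
        · rw [← h.1, ← h.2]; simp
        · rw [Matrix.single_apply_of_ne _ _ _ _ _ h, if_neg]
          rintro ⟨h1, h2⟩; exact h ⟨h1.symm, h2.symm⟩
      rw [hL, Matrix.mul_apply]
      by_cases hk : k = a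
      · subst hk
        rw [Finset.sum_eq_single k]
        · rw [hR, hwa]
          simp only [Bm, if_true, perm, Matrix.of_apply, and_true]
          have hne : v k ≠ v b := ne_of_lt hvab
          by_cases h1 : x = v k
          · subst h1
            simp [hne, hs]
          · by_cases h2 : x = v b
            · subst h2
              simp [hne.symm]
            · simp [h1, h2]
        · intro l _ hl
          simp [Bm, hl]
        · simp
      · by_cases hkb : k = b
        · subst hkb
          have e1 : ∀ l, (Um * perm w) x l * Bm l k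
              = (if l = a then (Um * perm w) x a else 0)
                + (if l = k then (Um * perm w) x k * (-s⁻¹) else 0) := by
            intro l
            simp only [Bm, if_neg hk, if_true]
            by_cases h1 : l = a
            · subst h1
              have : ¬ (l = k) := fun h => hk h.symm
              simp [this]
            · by_cases h2 : l = k
              · subst h2; simp [h1]
              · simp [h1, h2]
          rw [Finset.sum_congr rfl (fun l _ => e1 l), Finset.sum_add_distrib]
          simp only [Finset.sum_ite_eq', Finset.mem_univ, if_true, if_neg hk, add_zero]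
          rw [hR, hR, hwa, hwb]
          have hne : v a ≠ v k := ne_of_lt hvab
          simp only [perm, Matrix.of_apply, and_true]
          by_cases h1 : x = v a
          · subst h1
            simp [hne]
          · by_cases h2 : x = v k
            · subst h2; simp [hne.symm]
            · simp [h1, h2]
        · rw [Finset.sum_eq_single k]
          · rw [hR, hwo k hk hkb]
            have : ¬ (v k = v b) := fun h => hkb (v.injective h)
            simp [Bm, hk, hkb, perm, this]
          · intro l _ hl
            simp [Bm, hk, hkb, hl]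
          · simp
    have hdet : IsUnit (perm v * Nm s).det := by
      rw [hfac, Matrix.det_mul, Matrix.det_mul]
      exact (hUm.2.mul hdw).mul hBm.2
    refine ⟨⟨Um, Bm, hUm, hBm, hfac⟩, ?_⟩
    apply inSpringer_of_mul hdet (Y := (1 - Matrix.single b a s) * Y * Nm s)
    · calc X * (perm v * Nm s) = (X * perm v) * Nm s := by rw [Matrix.mul_assoc]
        _ = perm v * 1 * (Y * Nm s) := by rw [hXv, Matrix.mul_one, Matrix.mul_assoc]
        _ = perm v * Nm s * ((1 - Matrix.single b a s) * Y * Nm s) := by
            rw [show perm v * Nm s * ((1 - Matrix.single b a s) * Y * Nm s)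
              = perm v * (Nm s * (1 - Matrix.single b a s)) * (Y * Nm s) by
                simp only [Matrix.mul_assoc], hNN s]
    · -- triangularity
      have hent : ∀ i k, ((1 - Matrix.single b a s) * Y * Nm s) i k
          = Y i k + (if k = a then s * Y i b else 0) - (if i = b then s * Y a k else 0)
            - (if i = b ∧ k = a then s * s * Y a b else 0) := by
        intro i k
        have h1 : (1 - Matrix.single b a s) * Y * Nm s
            = Y + Y * Matrix.single b a s - Matrix.single b a s * Y
              - Matrix.single b a s * Y * Matrix.single b a s := by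
          show (1 - Matrix.single b a s) * Y * (1 + Matrix.single b a s) = _
          rw [sub_mul, Matrix.one_mul, mul_add, Matrix.mul_one, sub_mul]
          abel
        have h2 : ∀ (Z : Matrix (Fin n) (Fin n) ℂ) (i k : Fin n),
            (Z * Matrix.single b a s) i k = if k = a then s * Z i b else 0 := by
          intro Z i k
          rw [Matrix.mul_apply, Finset.sum_eq_single b]
          · by_cases hk : k = a
            · subst hk; simp [mul_comm]
            · rw [Matrix.single_apply_of_ne _ _ _ _ _ (fun h => hk h.2.symm)]; simp [hk]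
          · intro l _ hl
            rw [Matrix.single_apply_of_ne _ _ _ _ _ (fun h => hl h.1.symm), mul_zero]
          · simp
        have h3 : ∀ (Z : Matrix (Fin n) (Fin n) ℂ) (i k : Fin n),
            (Matrix.single b a s * Z) i k = if i = b then s * Z a k else 0 := by
          intro Z i k
          rw [Matrix.mul_apply, Finset.sum_eq_single a]
          · by_cases hi : i = b
            · subst hi; simp
            · rw [Matrix.single_apply_of_ne _ _ _ _ _ (fun h => hi h.1.symm)]; simp [hi]
          · intro l _ hl
            rw [Matrix.single_apply_of_ne _ _ _ _ _ (fun h => hl h.2.symm), zero_mul]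
          · simp
        rw [h1, Matrix.sub_apply, Matrix.sub_apply, Matrix.add_apply, h2, h3, h2, h3]
        by_cases hk : k = a <;> by_cases hi : i = b <;> simp [hk, hi, mul_assoc]
      intro i k hki
      rw [hent, hYUT i k hki, hYab]
      by_cases hk : k = a
      · subst hk
        by_cases hi : i = b
        · subst hi
          simp [hYd]
        · have : i ≠ k := ne_of_gt hki
          simp [hi, hYib i this hi hki]
      · by_cases hi : i = b
        · subst hi
          have : k ≠ i := ne_of_lt hki
          simp [hk, hYak k hk this hki]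
        · simp [hk, hi]

end Pool.Agent.Lib_helper58.Spr
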