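import Mathlib
import Pool.Agent.Lib_helper58.Spr.Reflection

/-!
# Fixed points differing by an involution
-/

set_option autoImplicit false

open Matrix

namespace Pool.Agent.Lib_helper58.Spr

variable {n : ℕ}

/-- the matrix `∑ E_{τ a, a}`, the sum over `a < τ a` -/
def invN (τ : Equiv.Perm (Fin n)) : Matrix (Fin n) (Fin n) ℂ :=
  Matrix.of fun i k => if k < τ k ∧ i = τ k then 1 else 0

lemma mul_invN (τ : Equiv.Perm (Fin n)) (M : Matrix (Fin n) (Fin n) ℂ) (i k : Fin n) :
    (M * invN τ) i k = if k < τ k then M i (τ k) else 0 := by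
  rw [Matrix.mul_apply]
  by_cases h : k < τ k
  · rw [if_pos h, Finset.sum_eq_single (τ k)]
    · simp [invN, h]
    · intro l _ hl
      simp [invN, hl]
    · simp
  · rw [if_neg h]
    apply Finset.sum_eq_zero
    intro l _
    simp [invN, h]

lemma invN_mul {τ : Equiv.Perm (Fin n)} (hτ : ∀ k, τ (τ k) = k) (M : Matrix (Fin n) (Fin n) ℂ)
    (i k : Fin n) : (invN τ * M) i k = if τ i < i then M (τ i) k else 0 := by
  rw [Matrix.mul_apply]
  by_cases h : τ i < i
  · rw [if_pos h, Finset.sum_eq_single (τ i)]
    · simp [invN, h, hτ]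
    · intro l _ hl
      have : ¬ (i = τ l) := by rintro rfl; exact hl (hτ l).symm
      simp [invN, this]
    · simp
  · rw [if_neg h]
    apply Finset.sum_eq_zero
    intro l _
    have : ¬ (l < τ l ∧ i = τ l) := by
      rintro ⟨h1, rfl⟩
      rw [hτ] at h
      exact h h1
    simp [invN, this]

lemma invN_sq {τ : Equiv.Perm (Fin n)} (hτ : ∀ k, τ (τ k) = k) : invN τ * invN τ = 0 := by
  ext i k
  rw [mul_invN, Matrix.zero_apply]
  split_ifs with h
  · have : ¬ (τ k < τ (τ k)) := by rw [hτ]; exact not_lt.2 h.le
    simp [invN, this]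
  · rfl

/-- Let `w = v τ` with `τ` an involution such that `v a < v (τ a)` if `a < τ a`. If `vB`, `wB` and
all `v (a τ(a)) B` are in the Springer fibre of a nilpotent `X`, then `vB` is in the closure of
`C_w ∩ S_X`. -/
theorem involution (X : Matrix (Fin n) (Fin n) ℂ) (hX : IsNilpotent X)
    (v τ : Equiv.Perm (Fin n)) (hτ : ∀ k, τ (τ k) = k) (hvτ : ∀ a, a < τ a → v a < v (τ a))
    (hv : InSpringer X (perm v)) (hw : InSpringer X (perm (v * τ)))
    (h1 : ∀ a, a < τ a → InSpringer X (perm (v * Equiv.swap a (τ a)))) :
    InClosure X v (v * τ) := by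
  have hdv := det_perm_isUnit v
  set Y := (perm v)⁻¹ * X * perm v with hY
  have hXv : X * perm v = perm v * Y := by
    rw [hY, ← Matrix.mul_assoc, ← Matrix.mul_assoc, Matrix.mul_nonsing_inv _ hdv, Matrix.one_mul]
  have hpm : ∀ (u : Equiv.Perm (Fin n)) (Z : Matrix (Fin n) (Fin n) ℂ) x k,
      (perm u * Z) (u x) k = Z x k := by
    intro u Z x k
    rw [Matrix.mul_apply, Finset.sum_eq_single x]
    · simp [perm]
    · intro l _ hl
      have : ¬ (u x = u l) := fun h => hl (u.injective h).symm
      simp [perm, this]
    · simp
  have hYX : ∀ x k, Y x k = X (v x) (v k) := by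
    intro x k
    rw [← hpm v Y x k, ← hXv, mul_perm]
  -- zeros of `Y` from other fixed points
  have hother : ∀ u : Equiv.Perm (Fin n), InSpringer X (perm (v * u)) →
      ∀ i k, k < i → Y (u i) (u k) = 0 := by
    intro u hu i k hki
    have hdu := det_perm_isUnit (v * u)
    have hXu : X * perm (v * u) = perm (v * u) * ((perm (v * u))⁻¹ * X * perm (v * u)) := by
      rw [← Matrix.mul_assoc, ← Matrix.mul_assoc, Matrix.mul_nonsing_inv _ hdu, Matrix.one_mul]
    rw [hYX]
    have h2 := hpm (v * u) ((perm (v * u))⁻¹ * X * perm (v * u)) i k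
    rw [← hXu, mul_perm] at h2
    have h3 : ((perm (v * u))⁻¹ * X * perm (v * u)) i k = 0 := hu i k hki
    rw [h3] at h2
    exact h2
  have hYUT : UT Y := hv
  have hYd : ∀ i, Y i i = 0 := fun i => diag_zero hX hdv hv i
  have hYw : ∀ i k, k < i → Y (τ i) (τ k) = 0 := hother τ hw
  -- column `τ a` below the diagonal position `a`
  have hcol : ∀ a, a < τ a → ∀ i, a < i → Y i (τ a) = 0 := by
    intro a ha i hi
    by_cases h : i = τ a
    · rw [h, hYd]
    · have := hother (Equiv.swap a (τ a)) (h1 a ha) i a hi
      rwa [Equiv.swap_apply_of_ne_of_ne (ne_of_gt hi) h, Equiv.swap_apply_left] at this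
  have hrow : ∀ a, a < τ a → ∀ k, k < τ a → Y a k = 0 := by
    intro a ha k hk
    by_cases h : k = a
    · rw [h, hYd]
    · have := hother (Equiv.swap a (τ a)) (h1 a ha) (τ a) k hk
      rwa [Equiv.swap_apply_of_ne_of_ne h (ne_of_lt hk), Equiv.swap_apply_right] at this
  -- the curve
  let N := invN τ
  have hNN : N * N = 0 := invN_sq hτ
  have hinv : ∀ s : ℂ, (1 + s • N) * (1 - s • N) = 1 := by
    intro s
    rw [add_mul, mul_sub, mul_sub, smul_mul_smul_comm, hNN]
    simp
  apply inClosure_of_curve (fun s => perm v * (1 + s • N))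
  · intro i j
    simp only [Matrix.mul_apply]
    apply continuous_finsetSum
    intro k _
    apply Continuous.mul continuous_const
    show Continuous fun s : ℂ => (1 : Matrix (Fin n) (Fin n) ℂ) k j + s * N k j
    fun_prop
  · show perm v * (1 + (0 : ℂ) • N) = perm v
    simp
  · intro s hs
    let Bm : Matrix (Fin n) (Fin n) ℂ := Matrix.of fun l k =>
      if k < τ k then (if l = k then s else 0)
      else if τ k < k then (if l = τ k then 1 else if l = k then -s⁻¹ else 0)
      else if l = k then 1 else 0
    let Um : Matrix (Fin n) (Fin n) ℂ := Matrix.of fun x y =>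
      (if x = y then 1 else 0) +
        (if v⁻¹ x < τ (v⁻¹ x) ∧ y = v (τ (v⁻¹ x)) then s⁻¹ else 0)
    have hUm : Borel Um := by
      have h2 : ∀ x y, v⁻¹ x < τ (v⁻¹ x) ∧ y = v (τ (v⁻¹ x)) → x < y := by
        rintro x y ⟨h3, rfl⟩
        have := hvτ _ h3
        rwa [Equiv.Perm.coe_inv, Equiv.apply_symm_apply] at this
      have h3 : UT Um := by
        intro i j hij
        simp only [Um, Matrix.of_apply]
        rw [if_neg (ne_of_gt hij), if_neg (fun h => absurd (h2 _ _ h) (not_lt.2 hij.le)), add_zero]
      refine ⟨h3, ut_det h3 fun i => ?_⟩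
      simp only [Um, Matrix.of_apply]
      rw [if_neg (fun h => absurd (h2 _ _ h) (lt_irrefl _))]
      simp
    have hBm : Borel Bm := by
      have h2 : UT Bm := by
        intro l k hkl
        simp only [Bm, Matrix.of_apply]
        have h3 : l ≠ k := ne_of_gt hkl
        by_cases hk : k < τ k
        · simp [hk, h3]
        · by_cases hk2 : τ k < k
          · have h4 : l ≠ τ k := ne_of_gt (hk2.trans hkl)
            simp [hk, hk2, h3, h4]
          · simp [hk, hk2, h3]
      refine ⟨h2, ut_det h2 fun i => ?_⟩
      simp only [Bm, Matrix.of_apply]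
      by_cases hk : i < τ i
      · simp [hk, hs]
      · by_cases hk2 : τ i < i
        · have h4 : i ≠ τ i := ne_of_gt hk2
          simp [hk, hk2, h4, hs]
        · simp [hk, hk2]
    have hfac : perm v * (1 + s • N) = Um * perm (v * τ) * Bm := by
      ext x k
      have hL : (perm v * (1 + s • N)) x k
          = (if x = v k then 1 else 0) + (if k < τ k then (if x = v (τ k) then s else 0) else 0) := by
        rw [mul_add, Matrix.mul_one, Matrix.add_apply, Matrix.mul_smul, Matrix.smul_apply,
          mul_invN]
        simp only [perm, Matrix.of_apply, smul_eq_mul]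
        congr 1
        split_ifs <;> simp
      have hR : ∀ l, (Um * perm (v * τ)) x l = (if x = v (τ l) then 1 else 0)
          + (if l < τ l ∧ x = v l then s⁻¹ else 0) := by
        intro l
        rw [mul_perm]
        simp only [Um, Matrix.of_apply, Equiv.Perm.mul_apply]
        congr 1
        by_cases h : l < τ l ∧ x = v l
        · obtain ⟨h3, rfl⟩ := h
          simp [h3]
        · rw [if_neg h, if_neg]
          rintro ⟨h3, h4⟩
          apply h
          have h5 : l = v⁻¹ x := τ.injective (v.injective h4)
          rw [h5]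
          exact ⟨h3, by simp⟩
      rw [hL, Matrix.mul_apply]
      rcases lt_trichotomy k (τ k) with hk | hk | hk
      · rw [Finset.sum_eq_single k]
        · rw [hR]
          simp only [Bm, Matrix.of_apply, hk, if_true, true_and]
          have hne : v (τ k) ≠ v k := fun h => (ne_of_gt hk) (v.injective h)
          by_cases h2 : x = v k
          · have h3 : ¬ (v k = v (τ k)) := fun h => hne h.symm
            simp [h2, h3, hs]
          · by_cases h3 : x = v (τ k)
            · simp [h3, hne]
            · simp [h2, h3]
        · intro l _ hl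
          simp [Bm, hk, hl]
        · simp
      · have hk1 : ¬ (k < τ k) := fun h => (ne_of_lt h) hk
        have hk2 : ¬ (τ k < k) := fun h => (ne_of_gt h) hk
        rw [Finset.sum_eq_single k]
        · rw [hR]
          simp [Bm, hk1, hk2, ← hk]
        · intro l _ hl
          simp [Bm, hk1, hk2, hl]
        · simp
      · have hk1 : ¬ (k < τ k) := not_lt.2 hk.le
        have hkne : k ≠ τ k := ne_of_gt hk
        have e1 : ∀ l, (Um * perm (v * τ)) x l * Bm l k
            = (if l = τ k then (Um * perm (v * τ)) x (τ k) else 0)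
              + (if l = k then (Um * perm (v * τ)) x k * (-s⁻¹) else 0) := by
          intro l
          simp only [Bm, Matrix.of_apply, if_neg hk1, if_pos hk]
          by_cases h2 : l = τ k
          · subst h2
            have : ¬ (τ k = k) := fun h => hkne h.symm
            simp [this]
          · by_cases h3 : l = k
            · subst h3; simp [h2]
            · simp [h2, h3]
        rw [Finset.sum_congr rfl (fun l _ => e1 l), Finset.sum_add_distrib]
        simp only [Finset.sum_ite_eq', Finset.mem_univ, if_true, if_neg hk1, add_zero]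
        rw [hR, hR, hτ]
        have hne : v (τ k) ≠ v k := fun h => hkne (v.injective h).symm
        simp only [hk, hk1, true_and, false_and, if_false, add_zero]
        by_cases h2 : x = v k
        · have h3 : ¬ (v k = v (τ k)) := fun h => hne h.symm
          simp [h2, h3]
        · by_cases h3 : x = v (τ k)
          · simp [h3, hne]
          · simp [h2, h3]
    have hdet : IsUnit (perm v * (1 + s • N)).det := by
      rw [hfac, Matrix.det_mul, Matrix.det_mul]
      exact (hUm.2.mul (det_perm_isUnit _)).mul hBm.2
    refine ⟨⟨Um, Bm, hUm, hBm, hfac⟩, ?_⟩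
    apply inSpringer_of_mul hdet (Y := (1 - s • N) * Y * (1 + s • N))
    · calc X * (perm v * (1 + s • N)) = (X * perm v) * (1 + s • N) := by rw [Matrix.mul_assoc]
        _ = perm v * 1 * (Y * (1 + s • N)) := by rw [hXv, Matrix.mul_one, Matrix.mul_assoc]
        _ = perm v * (1 + s • N) * ((1 - s • N) * Y * (1 + s • N)) := by
            rw [show perm v * (1 + s • N) * ((1 - s • N) * Y * (1 + s • N))
              = perm v * ((1 + s • N) * (1 - s • N)) * (Y * (1 + s • N)) by
                simp only [Matrix.mul_assoc], hinv s]
    · have hent : ∀ i k, ((1 - s • N) * Y * (1 + s • N)) i k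
          = Y i k + s * (Y * N) i k - s * (N * Y) i k - s * s * (N * (Y * N)) i k := by
        intro i k
        have h2 : (1 - s • N) * Y * (1 + s • N)
            = Y + s • (Y * N) - s • (N * Y) - (s * s) • (N * (Y * N)) := by
          simp only [sub_mul, mul_add, Matrix.one_mul, Matrix.mul_one, Matrix.smul_mul,
            Matrix.mul_smul, Matrix.mul_assoc, smul_smul, smul_add, smul_sub]
          abel
        rw [h2]
        simp [Matrix.sub_apply, Matrix.add_apply, Matrix.smul_apply]
      intro i k hki
      rw [hent, hYUT i k hki]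
      have t1 : (Y * N) i k = 0 := by
        rw [mul_invN]
        split_ifs with h
        · exact hcol k h i hki
        · rfl
      have t2 : (N * Y) i k = 0 := by
        rw [invN_mul hτ]
        split_ifs with h
        · have h2 : τ i < τ (τ i) := by rw [hτ]; exact h
          exact hrow (τ i) h2 k (by rw [hτ]; exact hki)
        · rfl
      have t3 : (N * (Y * N)) i k = 0 := by
        rw [invN_mul hτ]
        split_ifs with h
        · rw [mul_invN]
          split_ifs with h2
          · exact hYw i k hki
          · rfl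
        · rfl
      rw [t1, t2, t3]
      ring

end Pool.Agent.Lib_helper58.Spr
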