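import Mathlib
import Pool.Agent.Lib_helper58.Spr.Degree

/-!
# Ranks of matrices built from `X`
-/

set_option autoImplicit false

open Matrix

namespace Pool.Agent.Lib_helper58.Spr

lemma exists_rows {s t r : ℕ} (A : Matrix (Fin s) (Fin t) ℂ) (hr : A.rank = r) :
    ∃ a : Fin r → Fin s, LinearIndependent ℂ (A.submatrix a id).row := by
  classical
  obtain ⟨κ, a, ha, hspan, hli⟩ := exists_linearIndependent' ℂ A.row
  have : Fintype κ := Fintype.ofInjective a ha
  have hcard : Fintype.card κ = r := by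
    rw [linearIndependent_iff_card_eq_finrank_span.1 hli, Set.finrank, hspan,
      ← Matrix.rank_eq_finrank_span_row, hr]
  let e : Fin r ≃ κ := (Fintype.equivFinOfCardEq hcard).symm
  refine ⟨a ∘ e, ?_⟩
  exact hli.comp e e.injective

lemma exists_minor {s t r : ℕ} (A : Matrix (Fin s) (Fin t) ℂ) (hr : A.rank = r) :
    ∃ (a : Fin r → Fin s) (b : Fin r → Fin t), (A.submatrix a b).det ≠ 0 := by
  obtain ⟨a, ha⟩ := exists_rows A hr
  have h1 : (A.submatrix a id)ᵀ.rank = r := by
    rw [Matrix.rank_transpose, ha.rank_matrix, Fintype.card_fin]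
  obtain ⟨b, hb⟩ := exists_rows _ h1
  refine ⟨a, b, ?_⟩
  have h2 := (Matrix.linearIndependent_rows_iff_isUnit).1 hb
  have h3 := ((Matrix.isUnit_iff_isUnit_det _).1 h2).ne_zero
  rw [← Matrix.det_transpose]
  exact h3

lemma le_rank_of_minor {s t r : ℕ} (A : Matrix (Fin s) (Fin t) ℂ) (a : Fin r → Fin s)
    (b : Fin r → Fin t) (h : (A.submatrix a b).det ≠ 0) : r ≤ A.rank := by
  have := Matrix.rank_submatrix_le A a b
  rw [Matrix.rank_of_det_ne_zero h, Fintype.card_fin] at this
  exact this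

lemma det_degree {σ : Type} {r d : ℕ} (M : Matrix (Fin r) (Fin r) (MvPolynomial σ ℚ))
    (hM : ∀ i j, (M i j).totalDegree ≤ d) : M.det.totalDegree ≤ r * d := by
  rw [Matrix.det_apply]
  apply MvPolynomial.totalDegree_finsetSum_le
  intro σ _
  have h1 : (∏ i, M (σ i) i).totalDegree ≤ r * d := by
    refine le_trans (MvPolynomial.totalDegree_finsetProd _ _) ?_
    refine le_trans (Finset.sum_le_sum fun i _ => hM (σ i) i) ?_
    simp
  rcases Int.units_eq_one_or (Equiv.Perm.sign σ) with h | h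
  · rw [h, one_smul]; exact h1
  · rw [h, Units.neg_smul, one_smul, MvPolynomial.totalDegree_neg]; exact h1

lemma rank_le_of_good {R : Type} [CommRing R] [Algebra ℚ R] (φ ψ : R →ₐ[ℚ] ℂ) (good : R → Prop)
    (h : ∀ P, good P → φ P ≠ 0 → ψ P ≠ 0) {s t : ℕ} (M : Matrix (Fin s) (Fin t) R)
    (hM : ∀ r, r ≤ s → ∀ (a : Fin r → Fin s) (b : Fin r → Fin t), good (M.submatrix a b).det) :
    (M.map φ).rank ≤ (M.map ψ).rank := by
  obtain ⟨r, hr⟩ : ∃ r, (M.map φ).rank = r := ⟨_, rfl⟩
  obtain ⟨a, b, hab⟩ := exists_minor (M.map φ) hr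
  have hrs : r ≤ s := by
    have := Matrix.rank_le_card_height (M.map φ)
    rw [hr, Fintype.card_fin] at this
    exact this
  have e : ∀ χ : R →ₐ[ℚ] ℂ, ((M.map χ).submatrix a b).det = χ (M.submatrix a b).det := by
    intro χ
    rw [AlgHom.map_det, AlgHom.mapMatrix_apply, Matrix.submatrix_map]
  rw [hr]
  apply le_rank_of_minor _ a b
  rw [e] at hab ⊢
  exact h _ (hM r hrs a b) hab

/-- if low degree rational polynomials do not distinguish `X` and `X'`, then the ranks of small
matrices built from `X` and `X'` are the same -/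
lemma rank_eq_of_low_degree {σ : Type} {K : ℕ} (φ ψ : MvPolynomial σ ℚ →ₐ[ℚ] ℂ)
    (h : ∀ P : MvPolynomial σ ℚ, P.totalDegree < K → (φ P = 0 ↔ ψ P = 0))
    (s t d : ℕ) (M : Matrix (Fin s) (Fin t) (MvPolynomial σ ℚ))
    (hM : ∀ i j, (M i j).totalDegree ≤ d) (hs : s * d < K) :
    (M.map φ).rank = (M.map ψ).rank := by
  have hdeg : ∀ r, r ≤ s → ∀ (a : Fin r → Fin s) (b : Fin r → Fin t),
      (M.submatrix a b).det.totalDegree < K := fun r hr a b =>
    lt_of_le_of_lt ((det_degree (M.submatrix a b) fun i j => hM _ _).trans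
      (Nat.mul_le_mul_right d hr)) hs
  apply le_antisymm
  · exact rank_le_of_good φ ψ (fun P => P.totalDegree < K)
      (fun P hP h1 h2 => h1 ((h P hP).2 h2)) M hdeg
  · exact rank_le_of_good ψ φ (fun P => P.totalDegree < K)
      (fun P hP h1 h2 => h1 ((h P hP).1 h2)) M hdeg

end Pool.Agent.Lib_helper58.Spr
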